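import Pool.Agent.H180.Pj.Pln

/-! The affine case and the case of concurrent lines. -/

set_option autoImplicit false
set_option linter.unusedSectionVars false

open Finset Configuration Configuration.ProjectivePlane
open scoped Classical

namespace Pool.Agent.H180.Pj

variable {P L : Type} [Membership P L] [ProjectivePlane P L] [Fintype P] [Finite L]

/-- the points of the line `a` -/
abbrev On (P : Type) {L : Type} [Membership P L] (a : L) : Set P := {x : P | x ∈ a}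

lemma notOn {a : L} {l : L} (x : Pts (On P a) l) : x.1 ∉ a := x.2.2

/-- a centre on `a` for one pair -/
lemma centre_one {a l k : L} {x y : P} (hx : x ∈ l) (hy : y ∈ k) (hxk : x ∉ k)
    (hyl : y ∉ l) (hxa : x ∉ a) (hya : y ∉ a) : ∃ z : P, z ∈ a ∧ z ∉ l ∧ z ∉ k ∧ Col L z x y := by
  obtain ⟨s, s1, s2⟩ := ex_ln (L := L) (fun e : x = y => hxk (e ▸ hy))
  have hsa : s ≠ a := fun e => hxa (e ▸ s1)
  have hsl : s ≠ l := fun e => hyl (e ▸ s2)
  have hsk : s ≠ k := fun e => hxk (e ▸ s1)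
  obtain ⟨z, z1, z2⟩ := ex_pt hsa
  refine ⟨z, z2, ?_, ?_, ⟨s, z1, s1, s2⟩⟩
  · intro h
    have : z = x := pt_uniq hsl z1 s1 h hx
    exact hxa (this ▸ z2)
  · intro h
    have : z = y := pt_uniq hsk z1 s2 h hy
    exact hya (this ▸ z2)

lemma q_one {a k m : L} {c : P} (hka : k ≠ a) (hma : m ≠ a) (hkm : k ≠ m) (hck : c ∈ k) (hcm : c ∈ m)
    {u : Pts (On P a) k} {b : Pts (On P a) m} (h1 : u.1 ≠ c) (h3 : b.1 ≠ c) :
    ∃ q, Persp (On P a) (On P a) k m q ∧ q u = b ∧ ∀ x, x.1 = c → (q x).1 = c := by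
  obtain ⟨z, z0, z1, z2, z3⟩ := centre_one (a := a) u.2.1 b.2.1
    (fun h => h1 (pt_uniq hkm u.2.1 hck h hcm)) (fun h => h3 (pt_uniq hkm h hck b.2.1 hcm)) u.2.2 b.2.2
  obtain ⟨q, hq, hq'⟩ := perspA hka hma hkm z0 z1 z2
  refine ⟨q, hq, persp_apply z1 z2 hq' z3, ?_⟩
  intro x hx
  rw [persp_fix z1 z2 hq' (by rw [hx]; exact hcm), hx]

lemma two_aff {a l m : L} (hla : l ≠ a) (hma : m ≠ a) (hlm : l ≠ m) (t : Tup 2 (On P a) l)
    (y : Tup 2 (On P a) m) : ∃ f, Product (On P a) (On P a) 2 l m f ∧ ∀ i, f (t i) = y i := by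
  obtain ⟨c, hcl, hcm⟩ := ex_pt hlm
  obtain ⟨i₀, hi₀⟩ : ∃ i, (y i).1 ≠ c := by
    by_contra hcon
    push Not at hcon
    have : y 0 = y 1 := Subtype.ext ((hcon 0).trans (hcon 1).symm)
    exact absurd (y.injective this) (by decide)
  obtain ⟨i₁, n1, hall⟩ : ∃ i₁ : Fin 2, i₁ ≠ i₀ ∧ ∀ i, i = i₀ ∨ i = i₁ := by
    have : ∀ i₀ : Fin 2, ∃ i₁ : Fin 2, i₁ ≠ i₀ ∧ ∀ i, i = i₀ ∨ i = i₁ := by decide
    exact this i₀
  have hyl : (y i₀).1 ∉ l := fun e => hi₀ (pt_uniq hlm e hcl (y i₀).2.1 hcm)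
  have hxy : (t i₀).1 ≠ (y i₀).1 := fun e => hyl (e ▸ (t i₀).2.1)
  obtain ⟨e, e1, e2⟩ := ex_ln (L := L) hxy
  have hel : e ≠ l := fun h => hyl (h ▸ e2)
  have hea : e ≠ a := fun h => notOn (t i₀) (h ▸ e1)
  obtain ⟨k, k1, k2, k3⟩ := ex_line3 (y i₀).1 m e
  have hka : k ≠ a := fun h => notOn (y i₀) (h ▸ k1)
  obtain ⟨z, z1, z2⟩ := ex_pt hea
  have hzl : z ∉ l := fun h => by
    have : z = (t i₀).1 := pt_uniq hel z1 e1 h (t i₀).2.1
    exact notOn (t i₀) (this ▸ z2)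
  have hzk : z ∉ k := fun h => by
    have : z = (y i₀).1 := pt_uniq k3 h k1 z1 e2
    exact notOn (y i₀) (this ▸ z2)
  have hlk : l ≠ k := fun h => hyl (h ▸ k1)
  obtain ⟨p, hp, hp'⟩ := perspA hla hka hlk z2 hzl hzk
  let yk : Pts (On P a) k := ⟨(y i₀).1, k1, (y i₀).2.2⟩
  have e0 : p (t i₀) = yk := persp_apply hzl hzk hp' ⟨e, z1, e1, e2⟩
  have hne : (p (t i₁)).1 ≠ (y i₀).1 := by
    intro h
    have : p (t i₁) = p (t i₀) := by rw [e0]; exact Subtype.ext h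
    exact n1 (t.injective (p.injective this))
  obtain ⟨q, hq, q1, q3⟩ := q_one hka hma k2 k1 (y i₀).2.1 hne
    (fun h => n1 (y.injective (Subtype.ext h)))
  refine ⟨p.trans q, Product.comp (Product.one hp) hq, ?_⟩
  intro i
  rcases hall i with rfl | rfl
  · rw [Equiv.trans_apply, e0]
    exact Subtype.ext (q3 yk rfl)
  · rw [Equiv.trans_apply, q1]

lemma turn_one {a l m : L} (hla : l ≠ a) (hma : m ≠ a) {c : P} (hc : c ∈ m) (hca : c ∉ a)
    {a₁ b₁ : Pts (On P a) m} (h1 : a₁.1 ≠ c) (h3 : b₁.1 ≠ c) :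
    ∃ g ∈ TT (On P a) (On P a) {l : L | l ≠ a} l m, g a₁ = b₁ ∧ ∀ x, x.1 = c → (g x).1 = c := by
  obtain ⟨k, k1, k2, k3⟩ := ex_line3 c l m
  have hka : k ≠ a := fun h => hca (h ▸ k1)
  obtain ⟨z, z0, z1, z2⟩ := ex_pt_on_off2 hka hma
  obtain ⟨p, hp, hp'⟩ := perspA hka hma k3 z0 z1 z2
  have hfix : ∀ x, x.1 = c → (p x).1 = c := fun x hx => by
    rw [persp_fix z1 z2 hp' (by rw [hx]; exact hc), hx]
  have hne : (p.symm a₁).1 ≠ c := by
    intro h
    have := hfix _ h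
    rw [Equiv.apply_symm_apply] at this
    exact h1 this
  obtain ⟨q, hq, q1, q3⟩ := q_one hka hma k3 k1 hc hne h3
  refine ⟨p.symm.trans q, ⟨k, hka, k2, p, q, hp, hq, rfl⟩, ?_, ?_⟩
  · rw [Equiv.trans_apply, q1]
  · intro x hx
    rw [Equiv.trans_apply]
    apply q3
    have hc' : p ⟨c, k1, hca⟩ = x := Subtype.ext ((hfix ⟨c, k1, hca⟩ rfl).trans hx.symm)
    rw [← hc', Equiv.symm_apply_apply]

lemma turn_aff (hn : 3 ≤ order P L) {a l m : L} (hla : l ≠ a) (hma : m ≠ a)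
    (y y' : Tup 2 (On P a) m) :
    ∃ g₁ ∈ TT (On P a) (On P a) {l : L | l ≠ a} l m,
    ∃ g₂ ∈ TT (On P a) (On P a) {l : L | l ≠ a} l m, ∀ i, g₁ (g₂ (y i)) = y' i := by
  obtain ⟨d, d1, d2⟩ := ex_pt hma
  obtain ⟨c, c1, c2⟩ := ex_pt_off m {(y 0).1, (y' 0).1, d} (card_le_three.trans hn)
  simp only [mem_insert, mem_singleton, not_or] at c2
  obtain ⟨c3, c4, c5⟩ := c2
  have hca : c ∉ a := fun h => c5 (pt_uniq hma c1 d1 h d2)
  obtain ⟨g₂, hg₂, e1, _⟩ := turn_one hla hma c1 hca (Ne.symm c3) (Ne.symm c4)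
  have k2 : (g₂ (y 1)).1 ≠ (y' 0).1 := by
    intro h
    have h' := Subtype.ext h
    rw [← e1] at h'
    exact absurd (y.injective (g₂.injective h')) (by decide)
  obtain ⟨g₁, hg₁, e3, e5⟩ := turn_one hla hma (y' 0).2.1 (y' 0).2.2 (a₁ := g₂ (y 1)) (b₁ := y' 1) k2
    (fun h => absurd (y'.injective (Subtype.ext h)) (by decide))
  refine ⟨g₁, hg₁, g₂, hg₂, ?_⟩
  intro i
  fin_cases i
  · show g₁ (g₂ (y 0)) = y' 0
    rw [e1]
    exact Subtype.ext (e5 _ rfl)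
  · show g₁ (g₂ (y 1)) = y' 1
    rw [e3]

lemma card_Pts_minus {A : Set P} {l : L} {c : P} (hc : c ∈ l) (hA : ∀ x : P, x ∈ l → (x ∈ A ↔ x = c)) :
    Nat.card (Pts A l) = order P L := by
  have h1 := pointCount_eq (P := P) l
  unfold pointCount at h1
  have h2 : Nat.card {p : P // p ∈ l} = Nat.card (Option (Pts A l)) := by
    apply Nat.card_congr
    refine ⟨fun x => if h : x.1 = c then none else some ⟨x.1, x.2, fun h' => h ((hA _ x.2).1 h')⟩,
      fun o => o.elim ⟨c, hc⟩ (fun x => ⟨x.1, x.2.1⟩), ?_, ?_⟩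
    · rintro ⟨x, hx⟩
      by_cases h : x = c
      · subst h; simp
      · simp [h]
    · rintro (_ | ⟨x, hx, hxA⟩)
      · simp
      · have : x ≠ c := fun h => hxA ((hA _ hx).2 h)
        simp [this]
  rw [h1, Nat.card_eq_fintype_card, Fintype.card_option, ← Nat.card_eq_fintype_card] at h2
  omega

lemma card_Pts_aff {a l : L} (hla : l ≠ a) : Nat.card (Pts (On P a) l) = order P L := by
  obtain ⟨c, c1, c2⟩ := ex_pt hla
  exact card_Pts_minus c1 (fun x hx => ⟨fun h => pt_uniq hla hx c1 h c2, fun h => h ▸ c2⟩)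

lemma card_Pts_pt {c : P} {l : L} (hc : c ∈ l) : Nat.card (Pts ({c} : Set P) l) = order P L :=
  card_Pts_minus hc (fun x _ => by simp)

theorem par_aff (hn : 3 ≤ order P L) (hpp : ¬ IsPrimePow (order P L)) (a : L) :
    Par (On P a) (On P a) {l : L | l ≠ a} 2 (order P L * (order P L - 1)) where
  two := fun l hl m hm hlm t y => two_aff hl hm hlm t y
  turn := fun l hl m hm y y' => turn_aff hn hl hm y y'
  third := by
    intro l hl m hm
    obtain ⟨d, d1, d2⟩ := ex_pt (show m ≠ a from hm)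
    obtain ⟨c, c1, c2⟩ := ex_pt_off m {d} (by rw [card_singleton]; omega)
    rw [mem_singleton] at c2
    have hca : c ∉ a := fun h => c2 (pt_uniq hm c1 d1 h d2)
    obtain ⟨k, k1, k2, k3⟩ := ex_line3 c l m
    have hka : k ≠ a := fun h => hca (h ▸ k1)
    obtain ⟨z, z0, z1, z2⟩ := ex_pt_on_off2 hka hm
    obtain ⟨p, hp, _⟩ := perspA hka hm k3 z0 z1 z2
    exact ⟨k, hka, k2, p, hp⟩
  card := by
    intro l hl
    rw [card_tup, card_Pts_aff hl]
    generalize order P L = n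
    simp only [Nat.descFactorial, Nat.sub_zero, mul_one]
    ring
  pos := by
    have : 0 < order P L - 1 := by omega
    positivity
  nogrp := by
    rintro m hm ⟨G, h1, h2⟩
    refine hpp (pp_two G (by omega) ?_ h1 h2)
    rw [← Nat.card_eq_fintype_card]
    exact card_Pts_aff hm

/-! ### concurrent lines -/

lemma persp_trans {l k : L} {c : P} (hlk : l ≠ k) (hcl : c ∈ l) (hck : c ∈ k)
    (t : Fin 2 ↪ Pts ({c} : Set P) l) (y : Fin 2 ↪ Pts ({c} : Set P) k) :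
    ∃ f, Persp Set.univ {c} l k f ∧ ∀ i, f (t i) = y i := by
  have h2 : ∀ {m : L} (x : Pts ({c} : Set P) m), x.1 ≠ c := fun x => x.2.2
  obtain ⟨z, z1, z2, z3, z4⟩ := centre_two hlk hcl hck
    (fun e => absurd (t.injective (Subtype.ext e)) (by decide : (0 : Fin 2) ≠ 1))
    (fun e => absurd (y.injective (Subtype.ext e)) (by decide : (0 : Fin 2) ≠ 1))
    (t 0).2.1 (t 1).2.1 (y 0).2.1 (y 1).2.1 (h2 _) (h2 _) (h2 _) (h2 _)
  obtain ⟨f, hf, hf'⟩ := perspC hcl hck hlk z1 z2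
  refine ⟨f, hf, fun i => ?_⟩
  fin_cases i
  · exact persp_apply z1 z2 hf' z3
  · exact persp_apply z1 z2 hf' z4

lemma persp_sharp {l k : L} {c : P} (hlk : l ≠ k) (hcl : c ∈ l) (hck : c ∈ k)
    {f f' : Pts ({c} : Set P) l ≃ Pts ({c} : Set P) k} (hf : Persp Set.univ {c} l k f)
    (hf' : Persp Set.univ {c} l k f') (t : Fin 2 ↪ Pts ({c} : Set P) l)
    (h : ∀ i, f (t i) = f' (t i)) : f = f' := by
  obtain ⟨_, z, _, z1, z2, z3⟩ := hf
  obtain ⟨_, z', _, z1', z2', z3'⟩ := hf'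
  have h2 : ∀ {m : L} (x : Pts ({c} : Set P) m), x.1 ≠ c := fun x => x.2.2
  have hne : (t 0).1 ≠ (t 1).1 := fun e => absurd (t.injective (Subtype.ext e)) (by decide)
  have key : ∀ i, ∃ s : L, s ≠ l ∧ z ∈ s ∧ z' ∈ s ∧ (t i).1 ∈ s := by
    intro i
    obtain ⟨s, s1, s2, s3⟩ := z3 (t i)
    obtain ⟨s', s1', s2', s3'⟩ := z3' (t i)
    rw [← h i] at s3'
    have e1 : (t i).1 ≠ (f (t i)).1 := by
      intro e
      exact h2 (t i) (pt_uniq hlk (t i).2.1 hcl (e ▸ (f (t i)).2.1) hck)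
    have e2 : s = s' := line_uniq e1 s2 s3 s2' s3'
    subst e2
    exact ⟨s, fun e => z1 (e ▸ s1), s1, s1', s2⟩
  obtain ⟨s, a0, a1, a2, a3⟩ := key 0
  obtain ⟨u, b0, b1, b2, b3⟩ := key 1
  have hsu : s ≠ u := by
    rintro rfl
    exact a0 (line_uniq hne a3 b3 (t 0).2.1 (t 1).2.1)
  have hz : z = z' := pt_uniq hsu a1 a2 b1 b2
  subst hz
  ext x
  exact congrArg Subtype.val (persp_apply z1 z2 z3 (y := f' x) (z3' x))

theorem concurrent (hpp : ¬ IsPrimePow (order P L)) {l k m : L} {c : P} (hlk : l ≠ k) (hkm : k ≠ m)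
    (hcl : c ∈ l) (hck : c ∈ k) (hcm : c ∈ m) :
    3 * (order P L * (order P L - 1)) ≤ 2 * {f : Pts ({c} : Set P) l ≃ Pts ({c} : Set P) m |
      ∃ p q, Persp Set.univ {c} l k p ∧ Persp Set.univ {c} k m q ∧ f = p.trans q}.ncard := by
  by_contra hlt
  push Not at hlt
  apply hpp
  refine freiman' (one_lt_order P L) {p | Persp Set.univ {c} l k p} {q | Persp Set.univ {c} k m q}
    (card_Pts_pt hcl) (card_Pts_pt hck) (card_Pts_pt hcm) ?_ ?_ ?_ ?_ ?_
  · intro t y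
    exact persp_trans hlk hcl hck t y
  · intro f hf f' hf' t h
    exact persp_sharp hlk hcl hck hf hf' t h
  · intro t y
    exact persp_trans hkm hck hcm t y
  · intro f hf f' hf' t h
    exact persp_sharp hkm hck hcm hf hf' t h
  · refine lt_of_eq_of_lt ?_ hlt
    congr 2
    ext f
    constructor
    · rintro ⟨p, hp, q, hq, e⟩
      exact ⟨p, q, hp, hq, e⟩
    · rintro ⟨p, q, hp, hq, e⟩
      exact ⟨p, hp, q, hq, e⟩

end Pool.Agent.H180.Pj
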