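import Pool.Agent.H180.Pj.Sharp

/-! Perspectivities of finite projective planes. -/

set_option autoImplicit false
set_option linter.unusedSectionVars false

open Finset Configuration Configuration.ProjectivePlane
open scoped Classical

namespace Pool.Agent.H180.Pj

/-- The points of the line `l` outside `A`. -/
abbrev Pts {P L : Type} [Membership P L] (A : Set P) (l : L) : Type := {x : P // x ∈ l ∧ x ∉ A}

/-- `f` is the perspectivity from the line `l` to the line `m ≠ l` (points of `A` omitted) with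
some centre `z` in `C`: the points `z`, `x`, `f x` are on a line for all `x`. -/
def Persp {P L : Type} [Membership P L] (C A : Set P) (l m : L) (f : Pts A l ≃ Pts A m) : Prop :=
  l ≠ m ∧ ∃ z ∈ C, z ∉ l ∧ z ∉ m ∧ ∀ x, ∃ h : L, z ∈ h ∧ x.1 ∈ h ∧ (f x).1 ∈ h

/-- `f` is a product of `k` perspectivities with centres in `C`. -/
inductive Product {P L : Type} [Membership P L] (C A : Set P) :
    ℕ → (l m : L) → (Pts A l ≃ Pts A m) → Prop
  | one {l m : L} {f : Pts A l ≃ Pts A m} : Persp C A l m f → Product C A 1 l m f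
  | comp {k : ℕ} {l j m : L} {f : Pts A l ≃ Pts A j} {g : Pts A j ≃ Pts A m} :
      Product C A k l j f → Persp C A j m g → Product C A (k + 1) l m (f.trans g)

variable {P L : Type} [Membership P L] [ProjectivePlane P L]

lemma line_uniq {p q : P} {l m : L} (hpq : p ≠ q) (h1 : p ∈ l) (h2 : q ∈ l) (h3 : p ∈ m)
    (h4 : q ∈ m) : l = m := by
  rcases Nondegenerate.eq_or_eq h1 h2 h3 h4 with h | h
  · exact absurd h hpq
  · exact h

lemma pt_uniq {p q : P} {l m : L} (hlm : l ≠ m) (h1 : p ∈ l) (h2 : q ∈ l) (h3 : p ∈ m)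
    (h4 : q ∈ m) : p = q := by
  rcases Nondegenerate.eq_or_eq h1 h2 h3 h4 with h | h
  · exact h
  · exact absurd h hlm

lemma ex_pt {l m : L} (h : l ≠ m) : ∃ p : P, p ∈ l ∧ p ∈ m :=
  ⟨HasPoints.mkPoint h, HasPoints.mkPoint_ax h⟩

lemma ex_ln {p q : P} (h : p ≠ q) : ∃ l : L, p ∈ l ∧ q ∈ l :=
  ⟨HasLines.mkLine h, HasLines.mkLine_ax h⟩

/-- collinear -/
def Col (L : Type) {P : Type} [Membership P L] (z x y : P) : Prop := ∃ h : L, z ∈ h ∧ x ∈ h ∧ y ∈ h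

lemma Col.symm {z x y : P} (h : Col L z x y) : Col L z y x := by
  obtain ⟨h, h1, h2, h3⟩ := h
  exact ⟨h, h1, h3, h2⟩

lemma col_uniq {z x y y' : P} {l m : L} (hx : x ∈ l) (hzl : z ∉ l) (hy : y ∈ m) (hy' : y' ∈ m)
    (hzm : z ∉ m) (h : Col L z x y) (h' : Col L z x y') : y = y' := by
  obtain ⟨h, h1, h2, h3⟩ := h
  obtain ⟨h', h1', h2', h3'⟩ := h'
  have hzx : z ≠ x := fun e => hzl (e ▸ hx)
  have e : h = h' := line_uniq hzx h1 h2 h1' h2'
  subst e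
  have hhm : h ≠ m := fun e => hzm (e ▸ h1)
  exact pt_uniq hhm h3 h3' hy hy'

/-- the perspectivity with a given centre -/
lemma ex_persp {C A : Set P} {l m : L} (hlm : l ≠ m) {z : P} (hz : z ∈ C) (hzl : z ∉ l)
    (hzm : z ∉ m) (hA : ∀ x y : P, x ∈ l → y ∈ m → Col L z x y → (x ∈ A ↔ y ∈ A)) :
    ∃ f : Pts A l ≃ Pts A m, Persp C A l m f ∧ ∀ x, Col L z x.1 (f x).1 := by
  have ex1 : ∀ x : Pts A l, ∃ y : Pts A m, Col L z x.1 y.1 := by
    rintro ⟨x, hx, hxA⟩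
    have hzx : z ≠ x := fun e => hzl (e ▸ hx)
    obtain ⟨h, h1, h2⟩ := ex_ln (L := L) hzx
    obtain ⟨y, hy1, hy2⟩ := ex_pt (fun e : h = m => hzm (e ▸ h1))
    exact ⟨⟨y, hy2, fun e => hxA ((hA x y hx hy2 ⟨h, h1, h2, hy1⟩).2 e)⟩, h, h1, h2, hy1⟩
  have ex2 : ∀ y : Pts A m, ∃ x : Pts A l, Col L z y.1 x.1 := by
    rintro ⟨y, hy, hyA⟩
    have hzy : z ≠ y := fun e => hzm (e ▸ hy)
    obtain ⟨h, h1, h2⟩ := ex_ln (L := L) hzy
    obtain ⟨x, hx1, hx2⟩ := ex_pt (fun e : h = l => hzl (e ▸ h1))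
    exact ⟨⟨x, hx2, fun e => hyA ((hA x y hx2 hy ⟨h, h1, hx1, h2⟩).1 e)⟩, h, h1, h2, hx1⟩
  choose f hf using ex1
  choose g hg using ex2
  refine ⟨⟨f, g, ?_, ?_⟩, ⟨hlm, z, hz, hzl, hzm, hf⟩, hf⟩
  · intro x
    exact Subtype.ext (col_uniq (f x).2.1 hzm (g (f x)).2.1 x.2.1 hzl (hg (f x)) (hf x).symm)
  · intro y
    exact Subtype.ext (col_uniq (g y).2.1 hzl (f (g y)).2.1 y.2.1 hzm (hf (g y)) (hg y).symm)

lemma persp_apply {A : Set P} {l m : L} {z : P} (hzl : z ∉ l) (hzm : z ∉ m)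
    {f : Pts A l ≃ Pts A m} (hf : ∀ x, Col L z x.1 (f x).1) {x : Pts A l} {y : Pts A m}
    (h : Col L z x.1 y.1) : f x = y :=
  Subtype.ext (col_uniq x.2.1 hzl (f x).2.1 y.2.1 hzm (hf x) h)

/-- a centre for two pairs -/
lemma centre_two {l k : L} {c x₁ x₂ y₁ y₂ : P} (hlk : l ≠ k) (hcl : c ∈ l) (hck : c ∈ k)
    (hx : x₁ ≠ x₂) (hy : y₁ ≠ y₂) (h1 : x₁ ∈ l) (h2 : x₂ ∈ l) (h3 : y₁ ∈ k) (h4 : y₂ ∈ k)
    (n1 : x₁ ≠ c) (n2 : x₂ ≠ c) (n3 : y₁ ≠ c) (n4 : y₂ ≠ c) :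
    ∃ z : P, z ∉ l ∧ z ∉ k ∧ Col L z x₁ y₁ ∧ Col L z x₂ y₂ := by
  have a1 : y₁ ∉ l := fun e => n3 (pt_uniq hlk e hcl h3 hck)
  have a2 : y₂ ∉ l := fun e => n4 (pt_uniq hlk e hcl h4 hck)
  have b1 : x₁ ∉ k := fun e => n1 (pt_uniq hlk h1 hcl e hck)
  have b2 : x₂ ∉ k := fun e => n2 (pt_uniq hlk h2 hcl e hck)
  obtain ⟨s, s1, s2⟩ := ex_ln (L := L) (fun e : x₁ = y₁ => b1 (e ▸ h3))
  obtain ⟨t, t1, t2⟩ := ex_ln (L := L) (fun e : x₂ = y₂ => b2 (e ▸ h4))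
  have hsl : s ≠ l := fun e => a1 (e ▸ s2)
  have htl : t ≠ l := fun e => a2 (e ▸ t2)
  have hsk : s ≠ k := fun e => b1 (e ▸ s1)
  have htk : t ≠ k := fun e => b2 (e ▸ t1)
  have hst : s ≠ t := by
    rintro rfl
    exact hsl (line_uniq hx s1 t1 h1 h2)
  obtain ⟨z, z1, z2⟩ := ex_pt hst
  refine ⟨z, ?_, ?_, ⟨s, z1, s1, s2⟩, ⟨t, z2, t1, t2⟩⟩
  · intro hz
    exact hx ((pt_uniq hsl s1 z1 h1 hz).trans (pt_uniq htl z2 t1 hz h2))
  · intro hz
    exact hy ((pt_uniq hsk s2 z1 h3 hz).trans (pt_uniq htk z2 t2 hz h4))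

section Count

variable [Finite P] [Finite L]

lemma ex_line3 (c : P) (l m : L) : ∃ k : L, c ∈ k ∧ k ≠ l ∧ k ≠ m := by
  by_contra hcon
  push Not at hcon
  have h1 := lineCount_eq (L := L) c
  unfold lineCount at h1
  have h2 := one_lt_order P L
  have : Nat.card {l : L // c ∈ l} ≤ Nat.card (Fin 2) := by
    classical
    apply Nat.card_le_card_of_injective (fun k : {l : L // c ∈ l} => if k.1 = l then (0 : Fin 2) else 1)
    rintro ⟨k, hk⟩ ⟨k', hk'⟩ he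
    apply Subtype.ext
    simp only at he ⊢
    by_cases e : k = l
    · by_cases e' : k' = l
      · rw [e, e']
      · simp [e, e'] at he
    · by_cases e' : k' = l
      · simp [e, e'] at he
      · rw [hcon k hk e, hcon k' hk' e']
  rw [h1, Nat.card_eq_fintype_card, Fintype.card_fin] at this
  omega

lemma ex_pt_off (l : L) (s : Finset P) (hs : s.card ≤ order P L) : ∃ x : P, x ∈ l ∧ x ∉ s := by
  by_contra hcon
  push Not at hcon
  have h1 := pointCount_eq (P := P) l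
  unfold pointCount at h1
  have : Nat.card {p : P // p ∈ l} ≤ Nat.card s := by
    apply Nat.card_le_card_of_injective (fun p : {p : P // p ∈ l} => (⟨p.1, hcon p.1 p.2⟩ : s))
    rintro ⟨p, hp⟩ ⟨q, hq⟩ he
    simpa using he
  rw [h1, Nat.card_eq_fintype_card, Fintype.card_coe] at this
  omega

/-- a point off two lines -/
lemma ex_pt_off2 {k m : L} (hkm : k ≠ m) : ∃ z : P, z ∉ k ∧ z ∉ m := by
  obtain ⟨c, c1, c2⟩ := ex_pt hkm
  obtain ⟨h, h1, h2, h3⟩ := ex_line3 c k m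
  obtain ⟨z, z1, z2⟩ := ex_pt_off h {c} (by rw [card_singleton]; exact (one_lt_order P L).le)
  rw [mem_singleton] at z2
  exact ⟨z, fun e => z2 (pt_uniq h2 z1 h1 e c1), fun e => z2 (pt_uniq h3 z1 h1 e c2)⟩

/-- a point of `a` off two lines -/
lemma ex_pt_on_off2 {a k m : L} (hk : k ≠ a) (hm : m ≠ a) : ∃ z : P, z ∈ a ∧ z ∉ k ∧ z ∉ m := by
  obtain ⟨c, c1, c2⟩ := ex_pt hk
  obtain ⟨d, d1, d2⟩ := ex_pt hm
  obtain ⟨z, z1, z2⟩ := ex_pt_off a {c, d} (card_le_two.trans (one_lt_order P L))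
  rw [mem_insert, mem_singleton, not_or] at z2
  exact ⟨z, z1, fun e => z2.1 (pt_uniq hk e c1 z1 c2), fun e => z2.2 (pt_uniq hm e d1 z1 d2)⟩

end Count

end Pool.Agent.H180.Pj
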