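import Pool.Agent.H180.Pj.Geo

/-! The growth of the sets of products of perspectivities. -/

set_option autoImplicit false
set_option linter.unusedSectionVars false

open Finset Configuration Configuration.ProjectivePlane
open scoped Classical

namespace Pool.Agent.H180.Pj

variable {P L : Type} [Membership P L] [ProjectivePlane P L] [Fintype P]

/-- tuples of distinct points -/
abbrev Tup (j : ℕ) (A : Set P) (l : L) : Type := Fin j ↪ Pts A l

/-- the permutations `m → k → m` with `k ≠ l` -/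
def TT (C A : Set P) (S : Set L) (l m : L) : Set (Equiv.Perm (Pts A m)) :=
  {g | ∃ k ∈ S, k ≠ l ∧ ∃ p q : Pts A k ≃ Pts A m, Persp C A k m p ∧ Persp C A k m q ∧
    g = p.symm.trans q}

/-- the properties used -/
structure Par (C A : Set P) (S : Set L) (j M : ℕ) : Prop where
  two : ∀ l ∈ S, ∀ m ∈ S, l ≠ m → ∀ (t : Tup j A l) (y : Tup j A m), ∃ f, Product C A 2 l m f ∧
    ∀ i, f (t i) = y i
  turn : ∀ l ∈ S, ∀ m ∈ S, ∀ y y' : Tup j A m, ∃ g₁ ∈ TT C A S l m, ∃ g₂ ∈ TT C A S l m,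
    ∀ i, g₁ (g₂ (y i)) = y' i
  third : ∀ l ∈ S, ∀ m ∈ S, ∃ k ∈ S, k ≠ l ∧ ∃ p : Pts A k ≃ Pts A m, Persp C A k m p
  card : ∀ l ∈ S, Nat.card (Tup j A l) = M
  pos : 0 < M
  nogrp : ∀ m ∈ S, ¬ ∃ G : Subgroup (Equiv.Perm (Pts A m)),
    (∀ y y' : Tup j A m, ∃ g ∈ G, ∀ i, g (y i) = y' i) ∧
    ∀ g ∈ G, ∀ y : Tup j A m, (∀ i, g (y i) = y i) → g = 1

variable {C A : Set P} {S : Set L} {j M : ℕ}

lemma Par.trans (h : Par C A S j M) : ∀ (i : ℕ) (l m : L), l ∈ S → m ∈ S → (i = 0 → l ≠ m) →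
    ∀ (t : Tup j A l) (y : Tup j A m), ∃ f, Product C A (i + 2) l m f ∧ ∀ i, f (t i) = y i := by
  intro i
  induction i with
  | zero =>
    intro l m hl hm hlm t y
    exact h.two l hl m hm (hlm rfl) t y
  | succ i ih =>
    intro l m hl hm _ t y
    obtain ⟨k, hk, hkl, p, hp⟩ := h.third l hl m hm
    obtain ⟨f, hf, e⟩ := ih l k hl hk (fun _ => hkl.symm) t (y.trans p.symm.toEmbedding)
    refine ⟨f.trans p, Product.comp hf hp, fun i => ?_⟩
    rw [Equiv.trans_apply, e i]
    simp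

/-- the finite set of products -/
noncomputable def prods (C A : Set P) (k : ℕ) (l m : L) : Finset (Pts A l ≃ Pts A m) :=
  univ.filter (fun f => Product C A k l m f)

lemma mem_prods {k : ℕ} {l m : L} {f : Pts A l ≃ Pts A m} :
    f ∈ prods C A k l m ↔ Product C A k l m f := by simp [prods]

lemma Par.base (h : Par C A S j M) (i : ℕ) {l m : L} (hl : l ∈ S) (hm : m ∈ S)
    (hlm : i = 0 → l ≠ m) : M ≤ (prods C A (i + 2) l m).card := by
  have hne : Nonempty (Tup j A l) := by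
    rw [← Fintype.card_pos_iff, ← Nat.card_eq_fintype_card, h.card l hl]; exact h.pos
  obtain ⟨t⟩ := hne
  have := h.trans i l m hl hm hlm t
  choose f hf he using this
  rw [← h.card m hm, Nat.card_eq_fintype_card, ← card_univ]
  apply card_le_card_of_injOn f
  · intro y _
    exact mem_coe.2 (mem_prods.2 (hf y))
  · intro y _ y' _ e
    ext i
    rw [← he y i, ← he y' i, e]

lemma stay_ge {i : ℕ} {l m k : L} {p q : Pts A k ≃ Pts A m} (hp : Persp C A k m p)
    (hq : Persp C A k m q) :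
    (prods C A i l k).card ≤ st (prods C A (i + 1) l m) (p.symm.trans q) :=
  st_ge _ _ _ _ (fun _ hf => ⟨mem_prods.2 (Product.comp (mem_prods.1 hf) hp),
    mem_prods.2 (Product.comp (mem_prods.1 hf) hq)⟩)

lemma Par.near (h : Par C A S j M) (i : ℕ) {l m : L} (hl : l ∈ S) (hm : m ∈ S) {b : ℝ}
    (hb : ∀ k ∈ S, k ≠ l → b ≤ (prods C A (i + 2) l k).card)
    (hlt : 6 * ((prods C A (i + 3) l m).card : ℝ) < 5 * b + 2 * M) :
    Near (prods C A (i + 3) l m) (TT C A S l m) b j where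
  one := by
    obtain ⟨k, hk, hkl, p, hp⟩ := h.third l hl m hm
    exact ⟨k, hk, hkl, p, p, hp, hp, by ext x; simp⟩
  inv := by
    rintro _ ⟨k, hk, hkl, p, q, hp, hq, rfl⟩
    exact ⟨k, hk, hkl, q, p, hq, hp, by ext x; rfl⟩
  two := h.turn l hl m hm
  trans := by
    intro t y
    obtain ⟨f, hf, e⟩ := h.trans (i + 1) l m hl hm (by simp) t y
    exact ⟨f, mem_prods.2 hf, e⟩
  stay := by
    rintro _ ⟨k, hk, hkl, p, q, hp, hq, rfl⟩
    refine (hb k hk hkl).trans ?_
    exact Nat.cast_le.2 (stay_ge hp hq)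
  small := by
    have e1 : Fintype.card (Fin j ↪ Pts A l) = M := by
      rw [← Nat.card_eq_fintype_card]; exact h.card l hl
    rw [e1]
    exact hlt
  ne := by
    rw [← Fintype.card_pos_iff, ← Nat.card_eq_fintype_card, h.card m hm]
    exact h.pos

theorem Par.growth (h : Par C A S j M) : ∀ (i : ℕ) (l m : L), l ∈ S → m ∈ S → (i = 0 → l ≠ m) →
    (2 - (5 / 6 : ℝ) ^ i) * M ≤ (prods C A (i + 2) l m).card := by
  intro i
  induction i with
  | zero =>
    intro l m hl hm hlm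
    have := h.base 0 hl hm hlm
    have e : (M : ℝ) ≤ (prods C A (0 + 2) l m).card := Nat.cast_le.2 this
    rw [pow_zero]
    linarith
  | succ i ih =>
    intro l m hl hm _
    by_contra hlt
    push Not at hlt
    have hM : (0 : ℝ) < M := Nat.cast_pos.2 h.pos
    have e2 : (2 - (5 / 6 : ℝ) ^ (i + 1)) * M * 6 =
        5 * ((2 - (5 / 6 : ℝ) ^ i) * M) + 2 * M := by ring
    have e3 : ((prods C A (i + 3) l m).card : ℝ) < (2 - (5 / 6 : ℝ) ^ (i + 1)) * M := hlt
    have hNear := h.near i hl hm (fun k hk hkl => ih l k hl hk (fun _ => hkl.symm))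
      (by linarith)
    exact h.nogrp m hm ⟨hNear.grp, hNear.grp_trans, hNear.grp_rigid⟩

lemma ncard_prods (k : ℕ) (l m : L) :
    {f : Pts A l ≃ Pts A m | Product C A k l m f}.ncard = (prods C A k l m).card := by
  rw [← Set.ncard_coe_finset]
  congr 1
  ext f
  simp [prods]

end Pool.Agent.H180.Pj
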