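import Pool.Agent.H180.Pj.Aff

/-! Better growth in the projective case. -/

set_option autoImplicit false
set_option linter.unusedSectionVars false

open Finset Configuration Configuration.ProjectivePlane
open scoped Classical

namespace Pool.Agent.H180.Pj

lemma lv_symm {α κ : Type} [Fintype α] [Fintype κ] (S : Finset (α ≃ κ)) (v : Equiv.Perm κ) :
    lv S v⁻¹ ≤ lv S v := by
  have h1 := st_inv S v
  have h2 := lv_add_st S v
  have h3 := lv_add_st S v⁻¹
  omega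

/-- two permutations `v = p q⁻¹` of `κ` which agree on a tuple -/
lemma two_words {α κ β : Type} [Fintype α] [Fintype κ] [Fintype β] {j : ℕ} (S : Finset (α ≃ κ))
    (R : Finset (α ≃ β))
    (hS : ∀ (t : Fin j ↪ α) (y : Fin j ↪ κ), ∃ f ∈ S, ∀ i, f (t i) = y i)
    (p q p' q' : κ ≃ β) (hp : ∀ f ∈ S, f.trans p ∈ R) (hq : ∀ f ∈ S, f.trans q ∈ R)
    (hp' : ∀ f ∈ S, f.trans p' ∈ R) (hq' : ∀ f ∈ S, f.trans q' ∈ R)
    (hne : p.trans q.symm ≠ p'.trans q'.symm) (y : Fin j ↪ κ)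
    (hy : ∀ i, q.symm (p (y i)) = q'.symm (p' (y i))) :
    S.card + 2 * Fintype.card (Fin j ↪ α) ≤ 2 * R.card := by
  have a1 := half_right S R p q hp hq
  have a2 := half_right S R p' q' hp' hq'
  have b1 : (S.filter (fun f => f.trans (p.trans q.symm) ∈ S)).card = st S (p.trans q.symm) := rfl
  have b2 : (S.filter (fun f => f.trans (p'.trans q'.symm) ∈ S)).card = st S (p'.trans q'.symm) := rfl
  rw [b1] at a1
  rw [b2] at a2
  have c1 := lv_add_st S (p.trans q.symm)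
  have c2 := lv_add_st S (p'.trans q'.symm)
  have c3 := lv_symm S (p'.trans q'.symm)
  have c4 := lv_mul S (p'.trans q'.symm)⁻¹ (p.trans q.symm)
  have hw : (p'.trans q'.symm)⁻¹ * (p.trans q.symm) ≠ 1 := by
    intro h
    exact hne (inv_mul_eq_one.1 h).symm
  have c5 := rigid S hS _ hw y (by
    intro i
    rw [Equiv.Perm.mul_apply, Equiv.Perm.inv_eq_iff_eq]
    exact hy i)
  have c6 := lv_add_st S ((p'.trans q'.symm)⁻¹ * (p.trans q.symm))
  omega

variable {P L : Type} [Membership P L] [ProjectivePlane P L] [Fintype P] [Finite L]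

/-- a perspectivity between lines through `c`, extended to `c` -/
lemma lift {k m : L} {c : P} (hck : c ∈ k) (hcm : c ∈ m)
    {p' : Pts ({c} : Set P) k ≃ Pts ({c} : Set P) m} (hp' : Persp Set.univ {c} k m p') :
    ∃ p, Persp Set.univ (∅ : Set P) k m p ∧ (p ⟨c, hck, fun h => h⟩).1 = c ∧
      ∀ x : Pts ({c} : Set P) k, (p ⟨x.1, x.2.1, fun h => h⟩).1 = (p' x).1 := by
  obtain ⟨h0, z, _, z1, z2, z3⟩ := hp'
  obtain ⟨p, hp, hp'⟩ := perspU h0 z1 z2
  refine ⟨p, hp, persp_fix z1 z2 hp' hcm, fun x => ?_⟩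
  exact congrArg Subtype.val (persp_apply z1 z2 hp' (x := ⟨x.1, x.2.1, fun h => h⟩)
    (y := ⟨(p' x).1, (p' x).2.1, fun h => h⟩) (z3 x))

lemma Persp.symm {C A : Set P} {l m : L} {f : Pts A l ≃ Pts A m} (h : Persp C A l m f) :
    Persp C A m l f.symm := by
  obtain ⟨h0, z, hz, z1, z2, z3⟩ := h
  refine ⟨h0.symm, z, hz, z2, z1, fun y => ?_⟩
  obtain ⟨s, s1, s2, s3⟩ := z3 (f.symm y)
  rw [Equiv.apply_symm_apply] at s3
  exact ⟨s, s1, s3, s2⟩

/-- two different products `k → m → k` that agree in three points -/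
lemma ex_words (hpp : ¬ IsPrimePow (order P L)) {k m : L} (hkm : k ≠ m) :
    ∃ p q p' q' : Pts (∅ : Set P) k ≃ Pts (∅ : Set P) m, Persp Set.univ ∅ k m p ∧
      Persp Set.univ ∅ k m q ∧ Persp Set.univ ∅ k m p' ∧ Persp Set.univ ∅ k m q' ∧
      p.trans q.symm ≠ p'.trans q'.symm ∧ ∃ y : Fin 3 ↪ Pts (∅ : Set P) k,
      ∀ i, q.symm (p (y i)) = q'.symm (p' (y i)) := by
  obtain ⟨c, hck, hcm⟩ := ex_pt hkm
  have hn := one_lt_order P L
  have h1 := concurrent hpp hkm hkm.symm hck hcm hck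
  obtain ⟨x₀, x₁, hx⟩ := Fintype.exists_pair_of_one_lt_card (α := Pts ({c} : Set P) k)
    (by rw [← Nat.card_eq_fintype_card, card_Pts_pt hck]; exact hn)
  -- two different ones that agree on `x₀`, `x₁`
  obtain ⟨f, ⟨p, q, hp, hq, hf⟩, f', ⟨p', q', hp', hq', hf'⟩, hne, e0, e1⟩ :
      ∃ f ∈ {f : Pts ({c} : Set P) k ≃ Pts ({c} : Set P) k |
        ∃ p q, Persp Set.univ {c} k m p ∧ Persp Set.univ {c} m k q ∧ f = p.trans q},
      ∃ f' ∈ {f : Pts ({c} : Set P) k ≃ Pts ({c} : Set P) k |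
        ∃ p q, Persp Set.univ {c} k m p ∧ Persp Set.univ {c} m k q ∧ f = p.trans q},
      f ≠ f' ∧ f x₀ = f' x₀ ∧ f x₁ = f' x₁ := by
    by_contra hcon
    push Not at hcon
    have h2 : {f : Pts ({c} : Set P) k ≃ Pts ({c} : Set P) k |
        ∃ p q, Persp Set.univ {c} k m p ∧ Persp Set.univ {c} m k q ∧ f = p.trans q}.ncard ≤
        Nat.card (Tup 2 ({c} : Set P) k) := by
      rw [← Nat.card_coe_set_eq]
      apply Nat.card_le_card_of_injective (fun f => (pair x₀ x₁ hx).trans f.1.toEmbedding)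
      rintro ⟨f, hf⟩ ⟨f', hf'⟩ he
      have e0 := congrArg (fun e : Tup 2 ({c} : Set P) k => e 0) he
      have e1 := congrArg (fun e : Tup 2 ({c} : Set P) k => e 1) he
      by_contra hne
      exact hcon f hf f' hf' (fun h => hne (Subtype.ext h)) e0 e1
    rw [card_tup, card_Pts_pt hck] at h2
    have h3 : (order P L).descFactorial 2 = order P L * (order P L - 1) := by
      generalize order P L = n
      simp only [Nat.descFactorial, Nat.sub_zero, mul_one]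
      ring
    rw [h3] at h2
    have h4 : 0 < order P L * (order P L - 1) := by
      have : 0 < order P L - 1 := by omega
      positivity
    omega
  subst hf hf'
  obtain ⟨P1, hP1, a1, b1⟩ := lift hck hcm hp
  obtain ⟨Q1, hQ1, a2, b2⟩ := lift hck hcm hq.symm
  obtain ⟨P2, hP2, a3, b3⟩ := lift hck hcm hp'
  obtain ⟨Q2, hQ2, a4, b4⟩ := lift hck hcm hq'.symm
  -- the extended maps
  have key : ∀ {p₀ : Pts ({c} : Set P) k ≃ Pts ({c} : Set P) m}
      {q₀ : Pts ({c} : Set P) m ≃ Pts ({c} : Set P) k} {P₀ Q₀ : Pts (∅ : Set P) k ≃ Pts (∅ : Set P) m},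
      (∀ x : Pts ({c} : Set P) k, (P₀ ⟨x.1, x.2.1, fun h => h⟩).1 = (p₀ x).1) →
      (∀ x : Pts ({c} : Set P) k, (Q₀ ⟨x.1, x.2.1, fun h => h⟩).1 = (q₀.symm x).1) →
      ∀ x : Pts ({c} : Set P) k, (Q₀.symm (P₀ ⟨x.1, x.2.1, fun h => h⟩)).1 = (q₀ (p₀ x)).1 := by
    intro p₀ q₀ P₀ Q₀ h1 h2 x
    have e : Q₀.symm (P₀ ⟨x.1, x.2.1, fun h => h⟩) =
        ⟨(q₀ (p₀ x)).1, (q₀ (p₀ x)).2.1, fun h => h⟩ := by
      rw [Equiv.symm_apply_eq]
      apply Subtype.ext
      rw [h1 x, h2 (q₀ (p₀ x)), Equiv.symm_apply_apply]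
    rw [e]
  have keyc : ∀ {P₀ Q₀ : Pts (∅ : Set P) k ≃ Pts (∅ : Set P) m},
      (P₀ ⟨c, hck, fun h => h⟩).1 = c → (Q₀ ⟨c, hck, fun h => h⟩).1 = c →
      Q₀.symm (P₀ ⟨c, hck, fun h => h⟩) = ⟨c, hck, fun h => h⟩ := by
    intro P₀ Q₀ h1 h2
    rw [Equiv.symm_apply_eq]
    apply Subtype.ext
    rw [h1, h2]
  refine ⟨P1, Q1, P2, Q2, hP1, hQ1, hP2, hQ2, ?_, ?_⟩
  · intro h
    apply hne
    ext x
    have h' := congrArg (fun e : Pts (∅ : Set P) k ≃ Pts (∅ : Set P) k =>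
      (e ⟨x.1, x.2.1, fun h => h⟩).1) h
    simp only [Equiv.trans_apply] at h'
    rw [key b1 b2 x, key b3 b4 x] at h'
    exact h'
  · have hx0 : x₀.1 ≠ c := x₀.2.2
    have hx1 : x₁.1 ≠ c := x₁.2.2
    refine ⟨triple ⟨x₀.1, x₀.2.1, fun h => h⟩ ⟨x₁.1, x₁.2.1, fun h => h⟩ ⟨c, hck, fun h => h⟩
      (fun h => hx (Subtype.ext (congrArg (fun z : Pts (∅ : Set P) k => z.1) h)))
      (fun h => hx1 (congrArg (fun z : Pts (∅ : Set P) k => z.1) h))
      (fun h => hx0 (congrArg (fun z : Pts (∅ : Set P) k => z.1) h)), ?_⟩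
    intro i
    fin_cases i
    · show Q1.symm (P1 ⟨x₀.1, x₀.2.1, fun h => h⟩) = Q2.symm (P2 ⟨x₀.1, x₀.2.1, fun h => h⟩)
      apply Subtype.ext
      rw [key b1 b2 x₀, key b3 b4 x₀]
      exact congrArg Subtype.val e0
    · show Q1.symm (P1 ⟨x₁.1, x₁.2.1, fun h => h⟩) = Q2.symm (P2 ⟨x₁.1, x₁.2.1, fun h => h⟩)
      apply Subtype.ext
      rw [key b1 b2 x₁, key b3 b4 x₁]
      exact congrArg Subtype.val e1
    · show Q1.symm (P1 ⟨c, hck, fun h => h⟩) = Q2.symm (P2 ⟨c, hck, fun h => h⟩)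
      rw [keyc a1 a2, keyc a3 a4]

theorem growth_proj (hpp : ¬ IsPrimePow (order P L)) (hn : 4 ≤ order P L) (i : ℕ) : ∀ l m : L,
    (i = 0 → l ≠ m) → (2 - (1 / 2 : ℝ) ^ i) *
      (((order P L + 1) * order P L * (order P L - 1) : ℕ) : ℝ) ≤
      (prods Set.univ (∅ : Set P) (i + 2) l m).card := by
  have par := par_proj (P := P) (L := L) hn hpp
  induction i with
  | zero =>
    intro l m hlm
    have := par.base 0 (Set.mem_univ l) (Set.mem_univ m) hlm
    have e : (((order P L + 1) * order P L * (order P L - 1) : ℕ) : ℝ) ≤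
      (prods Set.univ (∅ : Set P) (0 + 2) l m).card := Nat.cast_le.2 this
    rw [pow_zero]
    linarith
  | succ i ih =>
    intro l m _
    obtain ⟨k, _, hkl, p₀, hp₀⟩ := par.third l (Set.mem_univ l) m (Set.mem_univ m)
    have hkm : k ≠ m := hp₀.1
    obtain ⟨p, q, p', q', hp, hq, hp', hq', hne, y, hy⟩ := ex_words hpp hkm
    have hcomp : ∀ p : Pts (∅ : Set P) k ≃ Pts (∅ : Set P) m, Persp Set.univ ∅ k m p →
        ∀ f ∈ prods Set.univ (∅ : Set P) (i + 2) l k,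
          f.trans p ∈ prods Set.univ (∅ : Set P) (i + 3) l m :=
      fun p hp f hf => mem_prods.2 (Product.comp (mem_prods.1 hf) hp)
    have h1 := two_words (prods Set.univ (∅ : Set P) (i + 2) l k)
      (prods Set.univ (∅ : Set P) (i + 3) l m) (j := 3) (by
        intro t y
        obtain ⟨f, hf, e⟩ := par.trans i l k (Set.mem_univ _) (Set.mem_univ _) (fun _ => hkl.symm) t y
        exact ⟨f, mem_prods.2 hf, e⟩) p q p' q' (hcomp p hp) (hcomp q hq) (hcomp p' hp')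
      (hcomp q' hq') hne y hy
    have h2 := par.card l (Set.mem_univ l)
    rw [Nat.card_eq_fintype_card] at h2
    rw [h2] at h1
    have h3 := ih l k (fun _ => hkl.symm)
    have h4 : ((prods Set.univ (∅ : Set P) (i + 2) l k).card : ℝ) +
        2 * (((order P L + 1) * order P L * (order P L - 1) : ℕ) : ℝ) ≤
        2 * (prods Set.univ (∅ : Set P) (i + 3) l m).card := by exact_mod_cast h1
    have h5 : (2 - (1 / 2 : ℝ) ^ (i + 1)) = (2 - (1 / 2 : ℝ) ^ i) / 2 + 1 := by ring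
    rw [h5]
    linarith

end Pool.Agent.H180.Pj
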