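import Pool.Agent.H180.Pj.Grow

/-! The projective and the affine case. -/

set_option autoImplicit false
set_option linter.unusedSectionVars false

open Finset Configuration Configuration.ProjectivePlane
open scoped Classical

namespace Pool.Agent.H180.Pj

variable {P L : Type} [Membership P L] [ProjectivePlane P L] [Fintype P] [Finite L]

lemma col_ex {z x : P} {l : L} (hx : x ∈ l) (hz : z ∉ l) : Col L z x x := by
  obtain ⟨h, h1, h2⟩ := ex_ln (L := L) (fun e : z = x => hz (e ▸ hx))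
  exact ⟨h, h1, h2, h2⟩

/-- common points are fixed -/
lemma persp_fix {A : Set P} {l m : L} {z : P} (hzl : z ∉ l) (hzm : z ∉ m)
    {f : Pts A l ≃ Pts A m} (hf : ∀ x, Col L z x.1 (f x).1) {x : Pts A l} (hx : x.1 ∈ m) :
    (f x).1 = x.1 :=
  col_uniq x.2.1 hzl (f x).2.1 hx hzm (hf x) (col_ex hx hzm)

lemma perspU {l m : L} (hlm : l ≠ m) {z : P} (hzl : z ∉ l) (hzm : z ∉ m) :
    ∃ f : Pts (∅ : Set P) l ≃ Pts (∅ : Set P) m, Persp Set.univ ∅ l m f ∧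
      ∀ x, Col L z x.1 (f x).1 :=
  ex_persp hlm (Set.mem_univ z) hzl hzm (fun _ _ _ _ _ => by simp)

lemma perspC {l m : L} {c : P} (hcl : c ∈ l) (hcm : c ∈ m) (hlm : l ≠ m) {z : P} (hzl : z ∉ l)
    (hzm : z ∉ m) : ∃ f : Pts ({c} : Set P) l ≃ Pts ({c} : Set P) m,
      Persp Set.univ {c} l m f ∧ ∀ x, Col L z x.1 (f x).1 := by
  apply ex_persp hlm (Set.mem_univ z) hzl hzm
  intro x y hx hy h
  simp only [Set.mem_singleton_iff]
  constructor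
  · rintro rfl
    exact col_uniq hx hzl hy hcm hzm h (col_ex hx hzl)
  · rintro rfl
    exact col_uniq hy hzm hx hcl hzl h.symm (col_ex hy hzm)

lemma perspA {a l m : L} (hla : l ≠ a) (hma : m ≠ a) (hlm : l ≠ m) {z : P} (hz : z ∈ a)
    (hzl : z ∉ l) (hzm : z ∉ m) : ∃ f : Pts {x : P | x ∈ a} l ≃ Pts {x : P | x ∈ a} m,
      Persp {x : P | x ∈ a} {x : P | x ∈ a} l m f ∧ ∀ x, Col L z x.1 (f x).1 := by
  apply ex_persp hlm hz hzl hzm
  rintro x y hx hy ⟨h, h1, h2, h3⟩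
  simp only [Set.mem_setOf_eq]
  constructor
  · intro hxa
    have hzx : z ≠ x := fun e => hzl (e ▸ hx)
    have : h = a := line_uniq hzx h1 h2 hz hxa
    exact this ▸ h3
  · intro hya
    have hzy : z ≠ y := fun e => hzm (e ▸ hy)
    have : h = a := line_uniq hzy h1 h3 hz hya
    exact this ▸ h2

/-! ### the projective case -/

lemma q_two {k m : L} {c : P} (hkm : k ≠ m) (hck : c ∈ k) (hcm : c ∈ m)
    {u₁ u₂ : Pts (∅ : Set P) k} {b₁ b₂ : Pts (∅ : Set P) m} (hu : u₁ ≠ u₂) (hb : b₁ ≠ b₂)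
    (h1 : u₁.1 ≠ c) (h2 : u₂.1 ≠ c) (h3 : b₁.1 ≠ c) (h4 : b₂.1 ≠ c) :
    ∃ q, Persp Set.univ ∅ k m q ∧ q u₁ = b₁ ∧ q u₂ = b₂ ∧ ∀ x, x.1 = c → (q x).1 = c := by
  obtain ⟨z, z1, z2, z3, z4⟩ := centre_two hkm hck hcm (fun e => hu (Subtype.ext e))
    (fun e => hb (Subtype.ext e)) u₁.2.1 u₂.2.1 b₁.2.1 b₂.2.1 h1 h2 h3 h4
  obtain ⟨q, hq, hq'⟩ := perspU hkm z1 z2
  refine ⟨q, hq, persp_apply z1 z2 hq' z3, persp_apply z1 z2 hq' z4, ?_⟩
  intro x hx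
  rw [persp_fix z1 z2 hq' (by rw [hx]; exact hcm), hx]

lemma others : ∀ i₀ : Fin 3, ∃ i₁ i₂ : Fin 3, i₁ ≠ i₀ ∧ i₂ ≠ i₀ ∧ i₁ ≠ i₂ ∧
    ∀ i, i = i₀ ∨ i = i₁ ∨ i = i₂ := by decide

lemma two_proj {l m : L} (hlm : l ≠ m) (t : Tup 3 (∅ : Set P) l) (y : Tup 3 (∅ : Set P) m) :
    ∃ f, Product Set.univ ∅ 2 l m f ∧ ∀ i, f (t i) = y i := by
  obtain ⟨c, hcl, hcm⟩ := ex_pt hlm
  obtain ⟨i₀, hi₀⟩ : ∃ i, (y i).1 ≠ c := by
    by_contra hcon
    push Not at hcon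
    have : y 0 = y 1 := Subtype.ext ((hcon 0).trans (hcon 1).symm)
    exact absurd (y.injective this) (by decide)
  obtain ⟨i₁, i₂, n1, n2, n3, hall⟩ := others i₀
  have hyl : (y i₀).1 ∉ l := fun e => hi₀ (pt_uniq hlm e hcl (y i₀).2.1 hcm)
  have hxy : (t i₀).1 ≠ (y i₀).1 := fun e => hyl (e ▸ (t i₀).2.1)
  obtain ⟨e, e1, e2⟩ := ex_ln (L := L) hxy
  have hel : e ≠ l := fun h => hyl (h ▸ e2)
  obtain ⟨k, k1, k2, k3⟩ := ex_line3 (y i₀).1 m e
  obtain ⟨z, z1, z2⟩ := ex_pt_off e {(t i₀).1, (y i₀).1} (card_le_two.trans (one_lt_order P L))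
  rw [mem_insert, mem_singleton, not_or] at z2
  have hzl : z ∉ l := fun h => z2.1 (pt_uniq hel z1 e1 h (t i₀).2.1)
  have hzk : z ∉ k := fun h => z2.2 (pt_uniq k3 h k1 z1 e2)
  have hlk : l ≠ k := fun h => hyl (h ▸ k1)
  obtain ⟨p, hp, hp'⟩ := perspU hlk hzl hzk
  let yk : Pts (∅ : Set P) k := ⟨(y i₀).1, k1, fun h => h⟩
  have e0 : p (t i₀) = yk := persp_apply hzl hzk hp' ⟨e, z1, e1, e2⟩
  have hne : ∀ i, i ≠ i₀ → (p (t i)).1 ≠ (y i₀).1 := by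
    intro i hi h
    have : p (t i) = p (t i₀) := by rw [e0]; exact Subtype.ext h
    exact hi (t.injective (p.injective this))
  have hny : ∀ i, i ≠ i₀ → (y i).1 ≠ (y i₀).1 := fun i hi h => hi (y.injective (Subtype.ext h))
  obtain ⟨q, hq, q1, q2, q3⟩ := q_two k2 k1 (y i₀).2.1
    (fun h => n3 (t.injective (p.injective h))) (fun h => n3 (y.injective h)) (hne i₁ n1)
    (hne i₂ n2) (hny i₁ n1) (hny i₂ n2)
  refine ⟨p.trans q, Product.comp (Product.one hp) hq, ?_⟩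
  intro i
  rcases hall i with rfl | rfl | rfl
  · rw [Equiv.trans_apply, e0]
    exact Subtype.ext (q3 yk rfl)
  · rw [Equiv.trans_apply, q1]
  · rw [Equiv.trans_apply, q2]

lemma turn_two (l : L) {m : L} {c : P} (hc : c ∈ m) {a₁ a₂ b₁ b₂ : Pts (∅ : Set P) m}
    (ha : a₁ ≠ a₂) (hb : b₁ ≠ b₂) (h1 : a₁.1 ≠ c) (h2 : a₂.1 ≠ c) (h3 : b₁.1 ≠ c)
    (h4 : b₂.1 ≠ c) : ∃ g ∈ TT Set.univ (∅ : Set P) Set.univ l m, g a₁ = b₁ ∧ g a₂ = b₂ ∧
      ∀ x, x.1 = c → (g x).1 = c := by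
  obtain ⟨k, k1, k2, k3⟩ := ex_line3 c l m
  obtain ⟨z, z1, z2⟩ := ex_pt_off2 k3
  obtain ⟨p, hp, hp'⟩ := perspU k3 z1 z2
  have hfix : ∀ x, x.1 = c → (p x).1 = c := fun x hx => by
    rw [persp_fix z1 z2 hp' (by rw [hx]; exact hc), hx]
  have hne : ∀ b : Pts (∅ : Set P) m, b.1 ≠ c → (p.symm b).1 ≠ c := by
    intro b hb h
    have := hfix _ h
    rw [Equiv.apply_symm_apply] at this
    exact hb this
  obtain ⟨q, hq, q1, q2, q3⟩ := q_two k3 k1 hc (fun h => ha (p.symm.injective h)) hb (hne _ h1)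
    (hne _ h2) h3 h4
  refine ⟨p.symm.trans q, ⟨k, Set.mem_univ _, k2, p, q, hp, hq, rfl⟩, ?_, ?_, ?_⟩
  · rw [Equiv.trans_apply, q1]
  · rw [Equiv.trans_apply, q2]
  · intro x hx
    rw [Equiv.trans_apply]
    apply q3
    have hc' : p ⟨c, k1, fun h => h⟩ = x := Subtype.ext ((hfix ⟨c, k1, fun h => h⟩ rfl).trans hx.symm)
    rw [← hc', Equiv.symm_apply_apply]

lemma turn_proj (hn : 4 ≤ order P L) (l m : L) (y y' : Tup 3 (∅ : Set P) m) :
    ∃ g₁ ∈ TT Set.univ (∅ : Set P) Set.univ l m, ∃ g₂ ∈ TT Set.univ (∅ : Set P) Set.univ l m,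
      ∀ i, g₁ (g₂ (y i)) = y' i := by
  have hd : ∀ (y : Tup 3 (∅ : Set P) m) (i j : Fin 3), i ≠ j → y i ≠ y j :=
    fun y i j h e => h (y.injective e)
  obtain ⟨c, c1, c2⟩ := ex_pt_off m {(y 0).1, (y 1).1, (y' 0).1, (y' 1).1} (card_le_four.trans hn)
  simp only [mem_insert, mem_singleton, not_or] at c2
  obtain ⟨c3, c4, c5, c6⟩ := c2
  obtain ⟨g₂, hg₂, e1, e2, _⟩ := turn_two l c1 (hd y 0 1 (by decide)) (hd y' 0 1 (by decide))
    (Ne.symm c3) (Ne.symm c4) (Ne.symm c5) (Ne.symm c6)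
  have k1 : y' 1 ≠ g₂ (y 2) := by
    intro h
    rw [← e2] at h
    exact hd y 1 2 (by decide) (g₂.injective h)
  have k2 : (g₂ (y 2)).1 ≠ (y' 0).1 := by
    intro h
    have h' := Subtype.ext h
    rw [← e1] at h'
    exact hd y 2 0 (by decide) (g₂.injective h')
  obtain ⟨g₁, hg₁, e3, e4, e5⟩ := turn_two l (y' 0).2.1 (a₁ := y' 1) (a₂ := g₂ (y 2)) (b₁ := y' 1)
    (b₂ := y' 2) k1 (hd y' 1 2 (by decide)) (fun h => hd y' 1 0 (by decide) (Subtype.ext h)) k2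
    (fun h => hd y' 1 0 (by decide) (Subtype.ext h)) (fun h => hd y' 2 0 (by decide) (Subtype.ext h))
  refine ⟨g₁, hg₁, g₂, hg₂, ?_⟩
  intro i
  fin_cases i
  · show g₁ (g₂ (y 0)) = y' 0
    rw [e1]
    exact Subtype.ext (e5 _ rfl)
  · show g₁ (g₂ (y 1)) = y' 1
    rw [e2, e3]
  · show g₁ (g₂ (y 2)) = y' 2
    rw [e4]

lemma card_Pts_empty (l : L) : Nat.card (Pts (∅ : Set P) l) = order P L + 1 := by
  rw [← pointCount_eq (P := P) l]
  unfold pointCount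
  apply Nat.card_congr
  exact ⟨fun x => ⟨x.1, x.2.1⟩, fun x => ⟨x.1, x.2, fun h => h⟩, fun _ => rfl, fun _ => rfl⟩

lemma card_tup (j : ℕ) (A : Set P) (l : L) :
    Nat.card (Tup j A l) = (Nat.card (Pts A l)).descFactorial j := by
  rw [Nat.card_eq_fintype_card, Nat.card_eq_fintype_card, Fintype.card_embedding_eq,
    Fintype.card_fin]

theorem par_proj (hn : 4 ≤ order P L) (hpp : ¬ IsPrimePow (order P L)) :
    Par (Set.univ : Set P) (∅ : Set P) (Set.univ : Set L) 3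
      ((order P L + 1) * order P L * (order P L - 1)) where
  two := fun l _ m _ hlm t y => two_proj hlm t y
  turn := fun l _ m _ y y' => turn_proj hn l m y y'
  third := by
    intro l _ m _
    obtain ⟨c, c1, _⟩ := ex_pt_off m ∅ (by simp)
    obtain ⟨k, k1, k2, k3⟩ := ex_line3 c l m
    obtain ⟨z, z1, z2⟩ := ex_pt_off2 k3
    obtain ⟨p, hp, _⟩ := perspU k3 z1 z2
    exact ⟨k, Set.mem_univ _, k2, p, hp⟩
  card := by
    intro l _
    rw [card_tup, card_Pts_empty]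
    generalize order P L = n
    simp only [Nat.descFactorial, Nat.add_sub_cancel, Nat.sub_zero, mul_one]
    have : n + 1 - 2 = n - 1 := by omega
    rw [this]
    ring
  pos := by
    have : 0 < order P L - 1 := by omega
    positivity
  nogrp := by
    rintro m _ ⟨G, h1, h2⟩
    refine hpp (pp_three G (by omega) ?_ h1 h2)
    rw [← Nat.card_eq_fintype_card]
    exact card_Pts_empty m

end Pool.Agent.H180.Pj
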