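import Mathlib

/-! A set of bijections that is nearly invariant under enough permutations. -/

set_option autoImplicit false
set_option linter.unusedSectionVars false

open Finset
open scoped Classical

namespace Pool.Agent.H180.Pj

variable {α β : Type} [Fintype α] [Fintype β] {j : ℕ}

/-- number of elements of `R` that leave `R` -/
noncomputable def lv (R : Finset (α ≃ β)) (g : Equiv.Perm β) : ℕ :=
  (R.filter (fun f => f.trans g ∉ R)).card

noncomputable def st (R : Finset (α ≃ β)) (g : Equiv.Perm β) : ℕ :=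
  (R.filter (fun f => f.trans g ∈ R)).card

lemma lv_add_st (R : Finset (α ≃ β)) (g : Equiv.Perm β) : st R g + lv R g = R.card :=
  card_filter_add_card_filter_not _

lemma lv_mul (R : Finset (α ≃ β)) (g h : Equiv.Perm β) : lv R (g * h) ≤ lv R h + lv R g := by
  have e1 : (R.filter (fun f => f.trans (g * h) ∉ R)) ⊆ (R.filter (fun f => f.trans h ∉ R)) ∪
      (R.filter (fun f => f.trans h ∈ R ∧ f.trans (g * h) ∉ R)) := by
    intro f hf
    obtain ⟨h1, h2⟩ := mem_filter.1 hf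
    by_cases hc : f.trans h ∈ R
    · exact mem_union_right _ (mem_filter.2 ⟨h1, hc, h2⟩)
    · exact mem_union_left _ (mem_filter.2 ⟨h1, hc⟩)
  refine (card_le_card e1).trans ((card_union_le _ _).trans (Nat.add_le_add_left ?_ _))
  apply card_le_card_of_injOn (fun f => f.trans h)
  · intro f hf
    obtain ⟨h1, h2, h3⟩ := mem_filter.1 (mem_coe.1 hf)
    refine mem_coe.2 (mem_filter.2 ⟨h2, ?_⟩)
    have : (f.trans h).trans g = f.trans (g * h) := by ext; rfl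
    rwa [this]
  · intro f _ f' _ he
    have := congrArg (fun e : α ≃ β => e.trans h.symm) he
    simpa [Equiv.trans_assoc] using this

lemma st_inv (R : Finset (α ≃ β)) (g : Equiv.Perm β) : st R g ≤ st R g⁻¹ := by
  apply card_le_card_of_injOn (fun f => f.trans g)
  · intro f hf
    obtain ⟨h1, h2⟩ := mem_filter.1 (mem_coe.1 hf)
    refine mem_coe.2 (mem_filter.2 ⟨h2, ?_⟩)
    have : (f.trans g).trans g⁻¹ = f := by ext x; simp
    rwa [this]
  · intro f _ f' _ he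
    have := congrArg (fun e : α ≃ β => e.trans g.symm) he
    simpa [Equiv.trans_assoc] using this

lemma st_ge {κ : Type} [Fintype κ] (Q : Finset (α ≃ κ)) (R : Finset (α ≃ β)) (p q : κ ≃ β)
    (h : ∀ f ∈ Q, f.trans p ∈ R ∧ f.trans q ∈ R) : Q.card ≤ st R (p.symm.trans q) := by
  have c1 : (Q.image (fun f : α ≃ κ => f.trans p)).card = Q.card := by
    apply card_image_of_injective
    intro f f' e
    have e' := congrArg (fun e : α ≃ β => e.trans p.symm) e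
    simpa [Equiv.trans_assoc] using e'
  rw [← c1]
  unfold st
  apply card_le_card
  intro x hx
  obtain ⟨f, hf, rfl⟩ := mem_image.1 hx
  have e : (f.trans p).trans (p.symm.trans q) = f.trans q := by ext x; simp
  rw [mem_filter, e]
  exact h f hf

/-- the tuple that `f` maps to `y` -/
noncomputable def pre (y : Fin j ↪ β) (f : α ≃ β) : Fin j ↪ α := y.trans f.symm.toEmbedding

lemma pre_spec (y : Fin j ↪ β) (f : α ≃ β) (i : Fin j) : f (pre y f i) = y i := by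
  simp [pre]

lemma pre_eq {y : Fin j ↪ β} {f : α ≃ β} {t : Fin j ↪ α} (h : ∀ i, f (t i) = y i) :
    pre y f = t := by
  ext i
  apply f.injective
  rw [pre_spec, h]

/-- **Rigidity**: a nonidentity permutation fixing a tuple keeps few elements. -/
lemma rigid (R : Finset (α ≃ β)) (hR : ∀ (t : Fin j ↪ α) (y : Fin j ↪ β), ∃ f ∈ R, ∀ i, f (t i) = y i)
    (w : Equiv.Perm β) (hw : w ≠ 1) (y : Fin j ↪ β) (hy : ∀ i, w (y i) = y i) :
    st R w + 2 * Fintype.card (Fin j ↪ α) ≤ 2 * R.card := by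
  have h1 : R.card = ∑ t : Fin j ↪ α, (R.filter (fun f => pre y f = t)).card :=
    card_eq_sum_card_fiberwise (fun f _ => mem_coe.2 (mem_univ _))
  have h2 : st R w = ∑ t : Fin j ↪ α,
      ((R.filter (fun f => f.trans w ∈ R)).filter (fun f => pre y f = t)).card :=
    card_eq_sum_card_fiberwise (fun f _ => mem_coe.2 (mem_univ _))
  have h3 : 2 * Fintype.card (Fin j ↪ α) = ∑ t : Fin j ↪ α, 2 := by
    rw [sum_const, card_univ, smul_eq_mul, mul_comm]
  rw [h2, h3, ← sum_add_distrib, h1, mul_sum]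
  apply sum_le_sum
  intro t _
  obtain ⟨f0, hf0, hf0'⟩ := hR t y
  have hf1 : f0 ∈ R.filter (fun f => pre y f = t) := mem_filter.2 ⟨hf0, pre_eq hf0'⟩
  have h4 : ((R.filter (fun f => f.trans w ∈ R)).filter (fun f => pre y f = t)).card ≤
      (R.filter (fun f => pre y f = t)).card := by
    apply card_le_card
    intro f hf
    obtain ⟨ha, hb⟩ := mem_filter.1 hf
    exact mem_filter.2 ⟨(mem_filter.1 ha).1, hb⟩
  have h5 : 0 < (R.filter (fun f => pre y f = t)).card := card_pos.2 ⟨f0, hf1⟩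
  by_cases h6 : 2 ≤ (R.filter (fun f => pre y f = t)).card
  · omega
  · have h7 : (R.filter (fun f => pre y f = t)).card = 1 := by omega
    have h8 : ((R.filter (fun f => f.trans w ∈ R)).filter (fun f => pre y f = t)).card = 0 := by
      rw [card_eq_zero, filter_eq_empty_iff]
      intro f hf hft
      obtain ⟨ha, hb⟩ := mem_filter.1 hf
      have k1 : f.trans w ∈ R.filter (fun f => pre y f = t) := by
        refine mem_filter.2 ⟨hb, pre_eq ?_⟩
        intro i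
        have : f (t i) = y i := by rw [← hft, pre_spec]
        rw [Equiv.trans_apply, this, hy]
      have k2 : f ∈ R.filter (fun f => pre y f = t) := mem_filter.2 ⟨ha, hft⟩
      have k3 : f.trans w = f := by
        obtain ⟨a, ha'⟩ := card_eq_one.1 h7
        rw [ha', mem_singleton] at k1 k2
        rw [k1, k2]
      apply hw
      ext b
      have := congrArg (fun e : α ≃ β => e (f.symm b)) k3
      simpa using this
    omega

variable (R : Finset (α ≃ β)) (T : Set (Equiv.Perm β)) (b : ℝ)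

/-- the hypotheses -/
structure Near (j : ℕ) : Prop where
  one : (1 : Equiv.Perm β) ∈ T
  inv : ∀ g ∈ T, g⁻¹ ∈ T
  two : ∀ y y' : Fin j ↪ β, ∃ g₁ ∈ T, ∃ g₂ ∈ T, ∀ i, g₁ (g₂ (y i)) = y' i
  trans : ∀ (t : Fin j ↪ α) (y : Fin j ↪ β), ∃ f ∈ R, ∀ i, f (t i) = y i
  stay : ∀ g ∈ T, b ≤ st R g
  small : 6 * (R.card : ℝ) < 5 * b + 2 * Fintype.card (Fin j ↪ α)
  ne : Nonempty (Fin j ↪ β)

variable {R T b}

lemma Near.lv_le (h : Near R T b j) {g : Equiv.Perm β} (hg : g ∈ T) : (lv R g : ℝ) ≤ R.card - b := by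
  have h1 := h.stay g hg
  have h2 : (st R g : ℝ) + lv R g = R.card := by exact_mod_cast lv_add_st R g
  linarith

lemma Near.five (h : Near R T b j) {g₁ g₂ g₃ g₄ g₅ : Equiv.Perm β} (h1 : g₁ ∈ T) (h2 : g₂ ∈ T)
    (h3 : g₃ ∈ T) (h4 : g₄ ∈ T) (h5 : g₅ ∈ T) (y : Fin j ↪ β)
    (hy : ∀ i, (g₁ * (g₂ * (g₃ * (g₄ * g₅)))) (y i) = y i) : g₁ * (g₂ * (g₃ * (g₄ * g₅))) = 1 := by
  by_contra hne
  have e1 := rigid R h.trans _ hne y hy
  have e2 := lv_mul R g₁ (g₂ * (g₃ * (g₄ * g₅)))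
  have e3 := lv_mul R g₂ (g₃ * (g₄ * g₅))
  have e4 := lv_mul R g₃ (g₄ * g₅)
  have e5 := lv_mul R g₄ g₅
  have e6 := lv_add_st R (g₁ * (g₂ * (g₃ * (g₄ * g₅))))
  have k1 := h.lv_le h1
  have k2 := h.lv_le h2
  have k3 := h.lv_le h3
  have k4 := h.lv_le h4
  have k5 := h.lv_le h5
  have e7 : R.card ≤ st R (g₁ * (g₂ * (g₃ * (g₄ * g₅)))) +
      (lv R g₁ + lv R g₂ + lv R g₃ + lv R g₄ + lv R g₅) := by omega
  have e8 : (R.card : ℝ) ≤ st R (g₁ * (g₂ * (g₃ * (g₄ * g₅)))) +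
      (lv R g₁ + lv R g₂ + lv R g₃ + lv R g₄ + lv R g₅) := by exact_mod_cast e7
  have e9 : (st R (g₁ * (g₂ * (g₃ * (g₄ * g₅)))) : ℝ) + 2 * Fintype.card (Fin j ↪ α) ≤
      2 * R.card := by exact_mod_cast e1
  have := h.small
  linarith

lemma Near.closed (h : Near R T b j) {g₁ g₂ g₃ : Equiv.Perm β} (h1 : g₁ ∈ T) (h2 : g₂ ∈ T)
    (h3 : g₃ ∈ T) : ∃ k₁ ∈ T, ∃ k₂ ∈ T, g₁ * (g₂ * g₃) = k₁ * k₂ := by
  obtain ⟨y⟩ := h.ne
  obtain ⟨k₁, hk₁, k₂, hk₂, hk⟩ := h.two y (y.trans (g₁ * (g₂ * g₃)).toEmbedding)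
  refine ⟨k₁, hk₁, k₂, hk₂, ?_⟩
  have e := h.five (h.inv _ hk₂) (h.inv _ hk₁) h1 h2 h3 y (by
    intro i
    have e1 := hk i
    simp only [Function.Embedding.trans_apply, Equiv.coe_toEmbedding] at e1
    rw [Equiv.Perm.mul_apply, Equiv.Perm.mul_apply, ← e1]
    simp)
  calc g₁ * (g₂ * g₃) = k₁ * (k₂ * (k₂⁻¹ * (k₁⁻¹ * (g₁ * (g₂ * g₃))))) := by group
    _ = k₁ * k₂ := by rw [e, mul_one]

/-- the group -/
def Near.grp (h : Near R T b j) : Subgroup (Equiv.Perm β) where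
  carrier := {g | ∃ g₁ ∈ T, ∃ g₂ ∈ T, g = g₁ * g₂}
  one_mem' := ⟨1, h.one, 1, h.one, by simp⟩
  mul_mem' := by
    rintro _ _ ⟨g₁, h1, g₂, h2, rfl⟩ ⟨g₃, h3, g₄, h4, rfl⟩
    obtain ⟨k₁, hk₁, k₂, hk₂, e⟩ := h.closed h1 h2 h3
    obtain ⟨k₃, hk₃, k₄, hk₄, e'⟩ := h.closed hk₁ hk₂ h4
    refine ⟨k₃, hk₃, k₄, hk₄, ?_⟩
    rw [← e', ← mul_assoc k₁, ← e]
    group
  inv_mem' := by
    rintro _ ⟨g₁, h1, g₂, h2, rfl⟩
    exact ⟨g₂⁻¹, h.inv _ h2, g₁⁻¹, h.inv _ h1, by group⟩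

lemma Near.grp_trans (h : Near R T b j) (y y' : Fin j ↪ β) : ∃ g ∈ h.grp, ∀ i, g (y i) = y' i := by
  obtain ⟨g₁, h1, g₂, h2, e⟩ := h.two y y'
  exact ⟨g₁ * g₂, ⟨g₁, h1, g₂, h2, rfl⟩, e⟩

lemma Near.grp_rigid (h : Near R T b j) (g : Equiv.Perm β) (hg : g ∈ h.grp) (y : Fin j ↪ β)
    (hy : ∀ i, g (y i) = y i) : g = 1 := by
  obtain ⟨g₁, h1, g₂, h2, rfl⟩ := hg
  have e : g₁ * g₂ = g₁ * (g₂ * (1 * (1 * 1))) := by simp
  rw [e] at hy ⊢
  exact h.five h1 h2 h.one h.one h.one y hy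

end Pool.Agent.H180.Pj
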