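import Pool.Agent.H180.Pj.Rig
import Pool.Graph.R_pool_sql_team_seeded_620a6dc7.helper300_ppc_.Jordan

/-! Sharply two- and three-transitive groups. -/

set_option autoImplicit false
set_option linter.unusedSectionVars false

open Finset
open scoped Classical

namespace Pool.Agent.H180.Pj

variable {Ω : Type} [Fintype Ω]

def pair {Ω : Type} (x y : Ω) (h : x ≠ y) : Fin 2 ↪ Ω :=
  ⟨![x, y], by
    intro a b hab
    fin_cases a <;> fin_cases b <;> simp_all⟩

def triple {Ω : Type} (x y z : Ω) (h : x ≠ y) (h' : y ≠ z) (h'' : x ≠ z) : Fin 3 ↪ Ω :=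
  ⟨![x, y, z], by
    intro a b hab
    fin_cases a <;> fin_cases b <;> simp_all⟩

theorem pp_two (G : Subgroup (Equiv.Perm Ω)) {n : ℕ} (hn : 2 ≤ n) (hc : Fintype.card Ω = n)
    (ht : ∀ y y' : Fin 2 ↪ Ω, ∃ g ∈ G, ∀ i, g (y i) = y' i)
    (hr : ∀ g ∈ G, ∀ y : Fin 2 ↪ Ω, (∀ i, g (y i) = y i) → g = 1) : IsPrimePow n := by
  have h2 : ∀ x y x' y' : Ω, x ≠ y → x' ≠ y' → ∃ g ∈ G, g x = x' ∧ g y = y' := by
    intro x y x' y' h h'
    obtain ⟨g, hg, e⟩ := ht (pair x y h) (pair x' y' h')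
    exact ⟨g, hg, e 0, e 1⟩
  have h3 : ∀ g ∈ G, ∀ x y : Ω, x ≠ y → g x = x → g y = y → g = 1 := by
    intro g hg x y h e1 e2
    apply hr g hg (pair x y h)
    intro i
    fin_cases i
    · exact e1
    · exact e2
  have := H300PPC.prime_power_of_sharply G h2 h3 (by rw [hc]; exact hn)
  rwa [hc] at this

theorem pp_three (G : Subgroup (Equiv.Perm Ω)) {n : ℕ} (hn : 2 ≤ n) (hO : Fintype.card Ω = n + 1)
    (ht : ∀ y y' : Fin 3 ↪ Ω, ∃ g ∈ G, ∀ i, g (y i) = y' i)
    (hr : ∀ g ∈ G, ∀ y : Fin 3 ↪ Ω, (∀ i, g (y i) = y i) → g = 1) : IsPrimePow n := by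
  have tt : ∀ x y z x' y' z' : Ω, x ≠ y → y ≠ z → x ≠ z → x' ≠ y' → y' ≠ z' → x' ≠ z' →
      ∃ g ∈ G, g x = x' ∧ g y = y' ∧ g z = z' := by
    intro x y z x' y' z' h1 h2 h3 h1' h2' h3'
    obtain ⟨g, hg, e⟩ := ht (triple x y z h1 h2 h3) (triple x' y' z' h1' h2' h3')
    exact ⟨g, hg, e 0, e 1, e 2⟩
  have sh : ∀ h ∈ G, ∀ x y z : Ω, x ≠ y → y ≠ z → x ≠ z → h x = x → h y = y → h z = z → h = 1 := by
    intro g hg x y z h1 h2 h3 e1 e2 e3
    apply hr g hg (triple x y z h1 h2 h3)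
    intro i
    fin_cases i
    · exact e1
    · exact e2
    · exact e3
  obtain ⟨p⟩ : Nonempty Ω := by rw [← Fintype.card_pos_iff]; omega
  let K : Subgroup (Equiv.Perm {a : Ω // a ≠ p}) :=
    { carrier := {τ | ∃ g ∈ G, g p = p ∧ ∀ a : {a : Ω // a ≠ p}, (τ a : Ω) = g a}
      mul_mem' := by
        rintro τ τ' ⟨g, hg, g1, g2⟩ ⟨g', hg', g1', g2'⟩
        exact ⟨g * g', G.mul_mem hg hg', by rw [Equiv.Perm.mul_apply, g1', g1],
          fun a => by rw [Equiv.Perm.mul_apply, Equiv.Perm.mul_apply, g2, g2']⟩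
      one_mem' := ⟨1, G.one_mem, rfl, fun a => rfl⟩
      inv_mem' := by
        rintro τ ⟨g, hg, g1, g2⟩
        refine ⟨g⁻¹, G.inv_mem hg, by rw [Equiv.Perm.inv_eq_iff_eq, g1], fun a => ?_⟩
        symm
        rw [Equiv.Perm.inv_eq_iff_eq, ← g2]
        simp }
  have hcard : Fintype.card {a : Ω // a ≠ p} = n := by
    rw [Fintype.card_subtype_compl, Fintype.card_subtype_eq, hO]; rfl
  have h2 : ∀ x y x' y' : {a : Ω // a ≠ p}, x ≠ y → x' ≠ y' → ∃ g ∈ K, g x = x' ∧ g y = y' := by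
    intro x y x' y' hxy hxy'
    obtain ⟨g, hg, e1, e2, e3⟩ := tt p x y p x' y' x.2.symm (fun e => hxy (Subtype.ext e)) y.2.symm
      x'.2.symm (fun e => hxy' (Subtype.ext e)) y'.2.symm
    have hpres : ∀ a, a ≠ p ↔ g a ≠ p := by
      intro a
      constructor
      · intro ha he
        exact ha (g.injective (by rw [he, e1]))
      · rintro ha rfl
        exact ha e1
    refine ⟨g.subtypePerm (fun a => (hpres a).symm), ⟨g, hg, e1, fun a => rfl⟩, ?_, ?_⟩
    · exact Subtype.ext e2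
    · exact Subtype.ext e3
  have hr' : ∀ g ∈ K, ∀ x y : {a : Ω // a ≠ p}, x ≠ y → g x = x → g y = y → g = 1 := by
    rintro τ ⟨g, hg, g1, g2⟩ x y hxy hx hy
    have e : g = 1 := sh g hg p x y x.2.symm (fun e => hxy (Subtype.ext e)) y.2.symm g1
      (by rw [← g2, hx]) (by rw [← g2, hy])
    ext a
    rw [g2, e]; rfl
  have := H300PPC.prime_power_of_sharply K h2 hr' (by rw [hcard]; omega)
  rwa [hcard] at this

lemma half_left {α β γ : Type} [Fintype α] [Fintype β] [Fintype γ] (B : Finset (β ≃ γ))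
    (C : Finset (α ≃ γ)) (p p' : α ≃ β) (h : ∀ q ∈ B, p.trans q ∈ C) (h' : ∀ q ∈ B, p'.trans q ∈ C) :
    2 * B.card ≤ C.card + (B.filter (fun q => (p'.symm.trans p).trans q ∈ B)).card := by
  have c1 : (B.image (fun q => p.trans q)).card = B.card := by
    apply card_image_of_injective
    intro q q' he
    have := congrArg (fun e : α ≃ γ => p.symm.trans e) he
    simpa [← Equiv.trans_assoc] using this
  have c2 : (B.image (fun q => p'.trans q)).card = B.card := by
    apply card_image_of_injective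
    intro q q' he
    have := congrArg (fun e : α ≃ γ => p'.symm.trans e) he
    simpa [← Equiv.trans_assoc] using this
  have c3 := card_union_add_card_inter (B.image (fun q => p.trans q)) (B.image (fun q => p'.trans q))
  have c4 : (B.image (fun q => p.trans q) ∪ B.image (fun q => p'.trans q)).card ≤ C.card := by
    apply card_le_card
    apply union_subset
    · intro x hx
      obtain ⟨q, hq, rfl⟩ := mem_image.1 hx
      exact h q hq
    · intro x hx
      obtain ⟨q, hq, rfl⟩ := mem_image.1 hx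
      exact h' q hq
  have c5 : (B.image (fun q => p.trans q) ∩ B.image (fun q => p'.trans q)).card ≤
      (B.filter (fun q => (p'.symm.trans p).trans q ∈ B)).card := by
    apply card_le_card_of_injOn (fun x => p.symm.trans x)
    · intro x hx
      obtain ⟨h1, h2⟩ := mem_inter.1 (mem_coe.1 hx)
      obtain ⟨q, hq, e⟩ := mem_image.1 h1
      obtain ⟨q', hq', e'⟩ := mem_image.1 h2
      refine mem_coe.2 (mem_filter.2 ⟨?_, ?_⟩)
      · have : p.symm.trans x = q := by rw [← e]; simp [← Equiv.trans_assoc]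
        show p.symm.trans x ∈ B
        rw [this]; exact hq
      · have : (p'.symm.trans p).trans (p.symm.trans x) = q' := by
          rw [← e']; ext y; simp
        show (p'.symm.trans p).trans (p.symm.trans x) ∈ B
        rw [this]; exact hq'
    · intro x _ x' _ he
      have := congrArg (fun e : β ≃ γ => p.trans e) he
      simpa [← Equiv.trans_assoc] using this
  omega

lemma half_right {α β γ : Type} [Fintype α] [Fintype β] [Fintype γ] (A : Finset (α ≃ β))
    (C : Finset (α ≃ γ)) (q q' : β ≃ γ) (h : ∀ p ∈ A, p.trans q ∈ C) (h' : ∀ p ∈ A, p.trans q' ∈ C) :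
    2 * A.card ≤ C.card + (A.filter (fun p => p.trans (q.trans q'.symm) ∈ A)).card := by
  have c1 : (A.image (fun p => p.trans q)).card = A.card := by
    apply card_image_of_injective
    intro p p' he
    have := congrArg (fun e : α ≃ γ => e.trans q.symm) he
    simpa [Equiv.trans_assoc] using this
  have c2 : (A.image (fun p => p.trans q')).card = A.card := by
    apply card_image_of_injective
    intro p p' he
    have := congrArg (fun e : α ≃ γ => e.trans q'.symm) he
    simpa [Equiv.trans_assoc] using this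
  have c3 := card_union_add_card_inter (A.image (fun p => p.trans q)) (A.image (fun p => p.trans q'))
  have c4 : (A.image (fun p => p.trans q) ∪ A.image (fun p => p.trans q')).card ≤ C.card := by
    apply card_le_card
    apply union_subset
    · intro x hx
      obtain ⟨p, hp, rfl⟩ := mem_image.1 hx
      exact h p hp
    · intro x hx
      obtain ⟨p, hp, rfl⟩ := mem_image.1 hx
      exact h' p hp
  have c5 : (A.image (fun p => p.trans q) ∩ A.image (fun p => p.trans q')).card ≤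
      (A.filter (fun p => p.trans (q.trans q'.symm) ∈ A)).card := by
    apply card_le_card_of_injOn (fun x => x.trans q.symm)
    · intro x hx
      obtain ⟨h1, h2⟩ := mem_inter.1 (mem_coe.1 hx)
      obtain ⟨p, hp, e⟩ := mem_image.1 h1
      obtain ⟨p', hp', e'⟩ := mem_image.1 h2
      refine mem_coe.2 (mem_filter.2 ⟨?_, ?_⟩)
      · have : x.trans q.symm = p := by rw [← e]; simp [Equiv.trans_assoc]
        show x.trans q.symm ∈ A
        rw [this]; exact hp
      · have : (x.trans q.symm).trans (q.trans q'.symm) = p' := by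
          rw [← e']; ext y; simp
        show (x.trans q.symm).trans (q.trans q'.symm) ∈ A
        rw [this]; exact hp'
    · intro x _ x' _ he
      have := congrArg (fun e : α ≃ β => e.trans q) he
      simpa [Equiv.trans_assoc] using this
  omega

lemma card_sharp {α β : Type} [Fintype α] [Fintype β] {n : ℕ} (A : Finset (α ≃ β))
    (hβ : Fintype.card β = n) (t : Fin 2 ↪ α)
    (hA : ∀ (t : Fin 2 ↪ α) (y : Fin 2 ↪ β), ∃ f ∈ A, ∀ i, f (t i) = y i)
    (hA' : ∀ f ∈ A, ∀ f' ∈ A, ∀ t : Fin 2 ↪ α, (∀ i, f (t i) = f' (t i)) → f = f') :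
    A.card = n * (n - 1) := by
  have e1 : Fintype.card (Fin 2 ↪ β) = n * (n - 1) := by
    rw [Fintype.card_embedding_eq, Fintype.card_fin, hβ]
    simp [Nat.descFactorial]
    ring
  rw [← e1, ← card_univ]
  apply card_bij (fun f _ => t.trans f.toEmbedding)
  · intro f _; exact mem_univ _
  · intro f hf f' hf' he
    apply hA' f hf f' hf' t
    intro i
    have := congrArg (fun e : Fin 2 ↪ β => e i) he
    simpa using this
  · intro y _
    obtain ⟨f, hf, e⟩ := hA t y
    refine ⟨f, hf, ?_⟩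
    ext i
    simpa using e i

/-- **Freiman's argument** for sharply two-transitive sets of bijections. -/
theorem freiman {α β γ : Type} [Fintype α] [Fintype β] [Fintype γ] {n : ℕ} (hn : 2 ≤ n)
    (A : Finset (α ≃ β)) (B : Finset (β ≃ γ)) (hα : Fintype.card α = n) (hβ : Fintype.card β = n)
    (hγ : Fintype.card γ = n)
    (hA : ∀ (t : Fin 2 ↪ α) (y : Fin 2 ↪ β), ∃ f ∈ A, ∀ i, f (t i) = y i)
    (hA' : ∀ f ∈ A, ∀ f' ∈ A, ∀ t : Fin 2 ↪ α, (∀ i, f (t i) = f' (t i)) → f = f')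
    (hB : ∀ (t : Fin 2 ↪ β) (y : Fin 2 ↪ γ), ∃ f ∈ B, ∀ i, f (t i) = y i)
    (hB' : ∀ f ∈ B, ∀ f' ∈ B, ∀ t : Fin 2 ↪ β, (∀ i, f (t i) = f' (t i)) → f = f')
    (hAB : 2 * ((A ×ˢ B).image (fun p => p.1.trans p.2)).card < 3 * (n * (n - 1))) :
    IsPrimePow n := by
  obtain ⟨a0, a1, ha⟩ := Fintype.exists_pair_of_one_lt_card (α := α) (by omega)
  obtain ⟨b0, b1, hb⟩ := Fintype.exists_pair_of_one_lt_card (α := β) (by omega)
  have cA := card_sharp A hβ (pair a0 a1 ha) hA hA'
  have cB := card_sharp B hγ (pair b0 b1 hb) hB hB'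
  set N := n * (n - 1) with hN
  set C := (A ×ˢ B).image (fun p => p.1.trans p.2) with hC
  have hCm : ∀ p ∈ A, ∀ q ∈ B, p.trans q ∈ C := fun p hp q hq =>
    mem_image.2 ⟨(p, q), mem_product.2 ⟨hp, hq⟩, rfl⟩
  -- the two sets of permutations of `β`
  let U : Set (Equiv.Perm β) := {u | ∃ p ∈ A, ∃ p' ∈ A, u = p'.symm.trans p}
  let V : Set (Equiv.Perm β) := {v | ∃ q ∈ B, ∃ q' ∈ B, v = q.trans q'.symm}
  have hU : ∀ u ∈ U, N < 2 * (B.filter (fun q => u.trans q ∈ B)).card := by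
    rintro _ ⟨p, hp, p', hp', rfl⟩
    have := half_left B C p p' (hCm p hp) (hCm p' hp')
    omega
  have hV : ∀ v ∈ V, N < 2 * (A.filter (fun p => p.trans v ∈ A)).card := by
    rintro _ ⟨q, hq, q', hq', rfl⟩
    have := half_right A C q q' (fun p hp => hCm p hp q hq) (fun p hp => hCm p hp q' hq')
    omega
  have hUi : ∀ u ∈ U, u.symm ∈ U := by
    rintro _ ⟨p, hp, p', hp', rfl⟩
    exact ⟨p', hp', p, hp, rfl⟩
  have hVi : ∀ v ∈ V, v.symm ∈ V := by
    rintro _ ⟨q, hq, q', hq', rfl⟩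
    exact ⟨q', hq', q, hq, rfl⟩
  have hVV : ∀ v₁ ∈ V, ∀ v₂ ∈ V, v₁.trans v₂ ∈ U := by
    intro v₁ h1 v₂ h2
    have k1 := hV _ (hVi _ h1)
    have k2 := hV _ h2
    have k3 : ∃ p, p ∈ (A.filter (fun p => p.trans v₁.symm ∈ A)) ∩ (A.filter (fun p => p.trans v₂ ∈ A)) := by
      by_contra hcon
      push Not at hcon
      have e1 := card_union_add_card_inter (A.filter (fun p => p.trans v₁.symm ∈ A))
        (A.filter (fun p => p.trans v₂ ∈ A))
      rw [eq_empty_of_forall_notMem hcon, card_empty] at e1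
      have e2 : (A.filter (fun p => p.trans v₁.symm ∈ A) ∪ A.filter (fun p => p.trans v₂ ∈ A)).card ≤
          A.card := card_le_card (union_subset (filter_subset _ _) (filter_subset _ _))
      omega
    obtain ⟨p, hp⟩ := k3
    obtain ⟨h3, h4⟩ := mem_inter.1 hp
    refine ⟨p.trans v₂, (mem_filter.1 h4).2, p.trans v₁.symm, (mem_filter.1 h3).2, ?_⟩
    ext x; simp
  have hUU : ∀ u₁ ∈ U, ∀ u₂ ∈ U, u₁.trans u₂ ∈ V := by
    intro u₁ h1 u₂ h2
    have k1 := hU _ h1
    have k2 := hU _ (hUi _ h2)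
    have k3 : ∃ q, q ∈ (B.filter (fun q => u₁.trans q ∈ B)) ∩ (B.filter (fun q => u₂.symm.trans q ∈ B)) := by
      by_contra hcon
      push Not at hcon
      have e1 := card_union_add_card_inter (B.filter (fun q => u₁.trans q ∈ B))
        (B.filter (fun q => u₂.symm.trans q ∈ B))
      rw [eq_empty_of_forall_notMem hcon, card_empty] at e1
      have e2 : (B.filter (fun q => u₁.trans q ∈ B) ∪ B.filter (fun q => u₂.symm.trans q ∈ B)).card ≤
          B.card := card_le_card (union_subset (filter_subset _ _) (filter_subset _ _))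
      omega
    obtain ⟨q, hq⟩ := k3
    obtain ⟨h3, h4⟩ := mem_inter.1 hq
    refine ⟨u₁.trans q, (mem_filter.1 h3).2, u₂.symm.trans q, (mem_filter.1 h4).2, ?_⟩
    ext x; simp
  obtain ⟨p0, hp0, _⟩ := hA (pair a0 a1 ha) (pair b0 b1 hb)
  have hU1 : (1 : Equiv.Perm β) ∈ U := ⟨p0, hp0, p0, hp0, by ext x; simp⟩
  have hV1 : (1 : Equiv.Perm β) ∈ V := by
    have := hUU 1 hU1 1 hU1
    exact this
  have hVU : ∀ v ∈ V, v ∈ U := by
    intro v hv
    have := hVV v hv 1 hV1
    exact this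
  let K : Subgroup (Equiv.Perm β) :=
    { carrier := U
      one_mem' := hU1
      mul_mem' := by
        intro g h hg hh
        exact hVU _ (hUU h hh g hg)
      inv_mem' := by
        intro g hg
        exact hUi g hg }
  apply pp_two K hn hβ
  · intro y y'
    obtain ⟨f, hf, e⟩ := hA (pair a0 a1 ha) y
    obtain ⟨f', hf', e'⟩ := hA (pair a0 a1 ha) y'
    refine ⟨f.symm.trans f', ⟨f', hf', f, hf, rfl⟩, fun i => ?_⟩
    rw [← e i, ← e' i]
    simp
  · rintro _ ⟨p, hp, p', hp', rfl⟩ y hy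
    have e : p = p' := by
      apply hA' p hp p' hp' (y.trans p'.symm.toEmbedding)
      intro i
      have := hy i
      simpa using this
    subst e
    ext x; simp

theorem freiman' {α β γ : Type} [Finite α] [Finite β] [Finite γ] {n : ℕ} (hn : 2 ≤ n)
    (A : Set (α ≃ β)) (B : Set (β ≃ γ)) (hα : Nat.card α = n) (hβ : Nat.card β = n)
    (hγ : Nat.card γ = n)
    (hA : ∀ (t : Fin 2 ↪ α) (y : Fin 2 ↪ β), ∃ f ∈ A, ∀ i, f (t i) = y i)
    (hA' : ∀ f ∈ A, ∀ f' ∈ A, ∀ t : Fin 2 ↪ α, (∀ i, f (t i) = f' (t i)) → f = f')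
    (hB : ∀ (t : Fin 2 ↪ β) (y : Fin 2 ↪ γ), ∃ f ∈ B, ∀ i, f (t i) = y i)
    (hB' : ∀ f ∈ B, ∀ f' ∈ B, ∀ t : Fin 2 ↪ β, (∀ i, f (t i) = f' (t i)) → f = f')
    (hAB : 2 * {f : α ≃ γ | ∃ p ∈ A, ∃ q ∈ B, f = p.trans q}.ncard < 3 * (n * (n - 1))) :
    IsPrimePow n := by
  haveI := Fintype.ofFinite α
  haveI := Fintype.ofFinite β
  haveI := Fintype.ofFinite γ
  rw [Nat.card_eq_fintype_card] at hα hβ hγ
  refine freiman hn (univ.filter (fun f => f ∈ A)) (univ.filter (fun f => f ∈ B)) hα hβ hγ ?_ ?_ ?_ ?_ ?_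
  · intro t y
    obtain ⟨f, hf, e⟩ := hA t y
    exact ⟨f, mem_filter.2 ⟨mem_univ _, hf⟩, e⟩
  · intro f hf f' hf' t h
    exact hA' f (mem_filter.1 hf).2 f' (mem_filter.1 hf').2 t h
  · intro t y
    obtain ⟨f, hf, e⟩ := hB t y
    exact ⟨f, mem_filter.2 ⟨mem_univ _, hf⟩, e⟩
  · intro f hf f' hf' t h
    exact hB' f (mem_filter.1 hf).2 f' (mem_filter.1 hf').2 t h
  · refine lt_of_eq_of_lt ?_ hAB
    rw [← Set.ncard_coe_finset]
    congr 2
    ext f
    simp only [coe_image, Set.mem_image, mem_coe, mem_product, mem_filter,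
      mem_univ, true_and, Prod.exists]
    constructor
    · rintro ⟨p, q, ⟨hp, hq⟩, rfl⟩
      exact ⟨p, hp, q, hq, rfl⟩
    · rintro ⟨p, hp, q, hq, rfl⟩
      exact ⟨p, q, ⟨hp, hq⟩, rfl⟩

end Pool.Agent.H180.Pj
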